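import Mathlib
open Finset

namespace Pool.Agent.Lib.Helper12.IntDist.Core

set_option linter.unusedSectionVars false

variable {ι α : Type} [Fintype ι] [DecidableEq ι] [Fintype α] [DecidableEq α]

/-- differ in exactly one coordinate -/
def HAdj (x y : ι → α) : Prop := ∃ i, x i ≠ y i ∧ ∀ j, j ≠ i → x j = y j

theorem HAdj.symm {x y : ι → α} (h : HAdj x y) : HAdj y x := by
  obtain ⟨i, h1, h2⟩ := h
  exact ⟨i, h1.symm, fun j hj => (h2 j hj).symm⟩

theorem not_hadj_self (x : ι → α) : ¬ HAdj x x := by
  rintro ⟨i, h1, _⟩
  exact h1 rfl

/-- three points on a common axis-parallel line -/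
def OnLine (x y z : ι → α) : Prop := ∃ i, ∀ j, j ≠ i → x j = y j ∧ x j = z j

open Classical in
/-- neighbours of x inside A -/
noncomputable def nbr (A : Finset (ι → α)) (x : ι → α) : Finset (ι → α) := A.filter (fun y => HAdj x y)

open Classical in
noncomputable def low (r : ℕ) (A : Finset (ι → α)) : Finset (ι → α) := A.filter (fun x => (nbr A x).card < r)

open Classical in
/-- directions in which x is alone in A -/
noncomputable def alone (A : Finset (ι → α)) (x : ι → α) : Finset ι :=
  univ.filter (fun i => ∀ y ∈ A, (∀ j, j ≠ i → x j = y j) → y = x)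

open Classical in
theorem card_alone_dir [Nonempty α] (A : Finset (ι → α)) (i : ι) :
    (A.filter (fun x => i ∈ alone A x)).card ≤ Fintype.card α ^ (Fintype.card ι - 1) := by
  have a0 : α := Classical.arbitrary α
  have h1 : Fintype.card ({j : ι // j ≠ i} → α) = Fintype.card α ^ (Fintype.card ι - 1) := by
    rw [Fintype.card_fun]
    congr 1
    rw [Fintype.card_subtype_compl]
    simp
  rw [← h1, ← Finset.card_univ]
  apply Finset.card_le_card_of_injOn (fun x => fun j : {j : ι // j ≠ i} => x j.1)
  · intro x _; simp
  · intro x hx y hy hxy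
    simp only [alone, Finset.coe_filter, Set.mem_ofPred_eq, Finset.mem_filter, Finset.mem_univ, true_and] at hx hy
    symm
    apply hx.2 y hy.1
    intro j hj
    exact congrFun hxy ⟨j, hj⟩

open Classical in
theorem card_alone_add (A : Finset (ι → α)) (x : ι → α) :
    Fintype.card ι ≤ (alone A x).card + (nbr A x).card := by
  have h : (alone A x)ᶜ.card ≤ (nbr A x).card := by
    have hex : ∀ i ∈ (alone A x)ᶜ, ∃ y ∈ A, (∀ j, j ≠ i → x j = y j) ∧ y ≠ x := by
      intro i hi
      simp only [alone, Finset.mem_compl, Finset.mem_filter, Finset.mem_univ, true_and, not_forall] at hi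
      obtain ⟨y, hy, h1, h2⟩ := hi
      exact ⟨y, hy, h1, h2⟩
    have hne0 : Nonempty (ι → α) := ⟨x⟩
    choose! g hg using hex
    apply Finset.card_le_card_of_injOn g
    · intro i hi
      obtain ⟨h1, h2, h3⟩ := hg i hi
      simp only [nbr, Finset.coe_filter, Set.mem_ofPred_eq]
      refine ⟨h1, i, ?_, h2⟩
      intro h
      apply h3
      funext j
      by_cases hj : j = i
      · subst hj; exact h.symm
      · exact (h2 j hj).symm
    · intro i hi j hj hij
      obtain ⟨h1, h2, h3⟩ := hg i hi
      obtain ⟨h4, h5, h6⟩ := hg j hj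
      by_contra hne
      apply h3
      funext l
      by_cases hl : l = i
      · subst hl
        rw [hij]
        exact (h5 l hne).symm
      · exact (h2 l hl).symm
  have := Finset.card_add_card_compl (alone A x)
  omega

open Classical in
theorem card_low [Nonempty α] (r : ℕ) (hr : 0 < r) (hι : Fintype.card ι = 2 * r) (A : Finset (ι → α)) :
    (low r A).card ≤ 2 * Fintype.card α ^ (2 * r - 1) := by
  have h1 : ∑ x ∈ A, (alone A x).card ≤ (2 * r) * Fintype.card α ^ (2 * r - 1) := by
    have h2 : ∑ x ∈ A, (alone A x).card = ∑ i : ι, (A.filter (fun x => i ∈ alone A x)).card := by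
      have h3 : ∀ x, (alone A x).card = ∑ i : ι, if i ∈ alone A x then 1 else 0 := by
        intro x
        simp
      simp_rw [h3]
      rw [Finset.sum_comm]
      apply Finset.sum_congr rfl
      intro i _
      rw [Finset.card_filter]
    rw [h2]
    calc _ ≤ ∑ i : ι, Fintype.card α ^ (2 * r - 1) := by
          apply Finset.sum_le_sum
          intro i _
          have := card_alone_dir A i
          rwa [hι] at this
      _ = _ := by simp [hι]
  have h4 : r * (low r A).card ≤ ∑ x ∈ A, (alone A x).card := by
    calc r * (low r A).card = ∑ x ∈ low r A, r := by simp [mul_comm]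
      _ ≤ ∑ x ∈ low r A, (alone A x).card := by
          apply Finset.sum_le_sum
          intro x hx
          simp only [low, Finset.mem_filter] at hx
          have := card_alone_add A x
          omega
      _ ≤ _ := by
          apply Finset.sum_le_sum_of_subset
          exact Finset.filter_subset _ _
  have h5 : r * (low r A).card ≤ r * (2 * Fintype.card α ^ (2 * r - 1)) := by
    calc _ ≤ _ := h4
      _ ≤ _ := h1
      _ = _ := by ring
  exact Nat.le_of_mul_le_mul_left h5 hr


/-- independent sequences of length m in A -/
def IndepSeq (m : ℕ) (A : Finset (ι → α)) (y : Fin m → ι → α) : Prop :=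
  (∀ i, y i ∈ A) ∧ ∀ i j, ¬ HAdj (y i) (y j)

open Classical in
noncomputable def indepCount (m : ℕ) (A : Finset (ι → α)) : ℕ :=
  (univ.filter (fun y : Fin m → ι → α => IndepSeq m A y)).card

open Classical in
theorem indepCount_succ (m : ℕ) (A : Finset (ι → α)) :
    indepCount (m + 1) A = ∑ v ∈ A, indepCount m (A \ nbr A v) := by
  unfold indepCount
  rw [← Finset.card_sigma]
  apply Finset.card_bij' (fun y _ => (⟨y 0, fun i => y i.succ⟩ : Σ _ : (ι → α), (Fin m → ι → α)))
    (fun p _ => (Fin.cons p.1 p.2 : Fin (m+1) → ι → α))
  · intro y hy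
    simp only [Finset.mem_filter, Finset.mem_univ, true_and, IndepSeq] at hy
    simp only [Finset.mem_sigma, Finset.mem_filter, Finset.mem_univ, true_and, IndepSeq]
    refine ⟨hy.1 0, fun i => ?_, fun i j => hy.2 _ _⟩
    rw [Finset.mem_sdiff]
    refine ⟨hy.1 _, ?_⟩
    simp only [nbr, Finset.mem_filter, not_and]
    intro _
    exact hy.2 _ _
  · intro p hp
    simp only [Finset.mem_sigma, Finset.mem_filter, Finset.mem_univ, true_and, IndepSeq] at hp
    simp only [Finset.mem_filter, Finset.mem_univ, true_and, IndepSeq]
    obtain ⟨h1, h2, h3⟩ := hp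
    have h2' : ∀ i, p.2 i ∈ A ∧ ¬ HAdj p.1 (p.2 i) := by
      intro i
      have := h2 i
      rw [Finset.mem_sdiff] at this
      refine ⟨this.1, fun h => this.2 ?_⟩
      simp only [nbr, Finset.mem_filter]
      exact ⟨this.1, h⟩
    constructor
    · intro i
      refine Fin.cases ?_ (fun i => ?_) i
      · exact h1
      · simpa using (h2' i).1
    · intro i j
      refine Fin.cases ?_ (fun i => ?_) i
      · refine Fin.cases ?_ (fun j => ?_) j
        · simp only [Fin.cons_zero]; exact not_hadj_self _
        · simp only [Fin.cons_zero, Fin.cons_succ]; exact (h2' j).2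
      · refine Fin.cases ?_ (fun j => ?_) j
        · simp only [Fin.cons_zero, Fin.cons_succ]
          exact fun h => (h2' i).2 h.symm
        · simp only [Fin.cons_succ]; exact h3 i j
  · intro y hy
    funext i
    refine Fin.cases ?_ (fun i => ?_) i <;> simp
  · intro p hp
    simp

theorem indepCount_le [Nonempty α] (r Q : ℕ) (hr : 0 < r) (hι : Fintype.card ι = 2 * r) (hQ : 0 < Q)
    (hα : Fintype.card α = 2 * Q) (m : ℕ) (A : Finset (ι → α)) :
    indepCount m A ≤ (4 * (2 * Q) ^ (2 * r - 1)) ^ m * Q ^ (A.card / r) := by
  classical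
  induction m generalizing A with
  | zero =>
    simp only [indepCount, pow_zero, one_mul]
    calc _ ≤ (univ : Finset (Fin 0 → ι → α)).card := Finset.card_filter_le _ _
      _ = 1 := by simp
      _ ≤ _ := Nat.one_le_pow _ _ hQ
  | succ m ih =>
    rw [indepCount_succ]
    set L := (2 * Q) ^ (2 * r - 1) with hL
    set B := (4 * L) ^ m with hB
    have hsplit : ∑ v ∈ A, indepCount m (A \ nbr A v) =
        ∑ v ∈ low r A, indepCount m (A \ nbr A v) + ∑ v ∈ A \ low r A, indepCount m (A \ nbr A v) := by
      rw [add_comm]
      exact (Finset.sum_sdiff (Finset.filter_subset _ _)).symm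
    rw [hsplit]
    have h1 : ∑ v ∈ low r A, indepCount m (A \ nbr A v) ≤ 2 * L * (B * Q ^ (A.card / r)) := by
      calc _ ≤ ∑ v ∈ low r A, B * Q ^ (A.card / r) := by
            apply Finset.sum_le_sum
            intro v _
            refine (ih _).trans (Nat.mul_le_mul_left _ ?_)
            apply Nat.pow_le_pow_right hQ
            apply Nat.div_le_div_right
            exact Finset.card_le_card (Finset.sdiff_subset)
        _ = (low r A).card * (B * Q ^ (A.card / r)) := by simp
        _ ≤ _ := by
            apply Nat.mul_le_mul_right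
            have := card_low r hr hι A
            rwa [hα] at this
    have h2 : ∑ v ∈ A \ low r A, indepCount m (A \ nbr A v) ≤ 2 * L * (B * Q ^ (A.card / r)) := by
      rcases Finset.eq_empty_or_nonempty (A \ low r A) with he | hne
      · rw [he]; simp
      · have hhigh : ∀ v ∈ A \ low r A, r ≤ (nbr A v).card := by
          intro v hv
          rw [Finset.mem_sdiff] at hv
          by_contra hlt
          apply hv.2
          simp only [low, Finset.mem_filter]
          exact ⟨hv.1, by omega⟩
        obtain ⟨v0, hv0⟩ := hne
        have hrA : r ≤ A.card := (hhigh v0 hv0).trans (Finset.card_le_card (Finset.filter_subset _ _))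
        have hdiv : A.card / r = (A.card - r) / r + 1 := by
          have : A.card = (A.card - r) + r := by omega
          conv_lhs => rw [this]
          rw [Nat.add_div_right _ hr]
        calc _ ≤ ∑ v ∈ A \ low r A, B * Q ^ ((A.card - r) / r) := by
              apply Finset.sum_le_sum
              intro v hv
              refine (ih _).trans (Nat.mul_le_mul_left _ ?_)
              apply Nat.pow_le_pow_right hQ
              apply Nat.div_le_div_right
              have hsub : nbr A v ⊆ A := Finset.filter_subset _ _
              rw [Finset.card_sdiff_of_subset hsub]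
              have := hhigh v hv
              omega
          _ = (A \ low r A).card * (B * Q ^ ((A.card - r) / r)) := by simp
          _ ≤ (2 * Q) ^ (2 * r) * (B * Q ^ ((A.card - r) / r)) := by
              apply Nat.mul_le_mul_right
              calc _ ≤ Fintype.card (ι → α) := Finset.card_le_univ _
                _ = _ := by rw [Fintype.card_fun, hα, hι]
          _ = 2 * L * (B * Q ^ (A.card / r)) := by
              rw [hdiv, pow_succ Q, hL]
              have : (2 * Q) ^ (2 * r) = (2 * Q) ^ (2 * r - 1) * (2 * Q) := by
                rw [← pow_succ]; congr 1; omega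
              rw [this]; ring
    calc _ ≤ 2 * L * (B * Q ^ (A.card / r)) + 2 * L * (B * Q ^ (A.card / r)) := Nat.add_le_add h1 h2
      _ = (4 * L) ^ (m + 1) * Q ^ (A.card / r) := by rw [pow_succ, ← hB]; ring

end Pool.Agent.Lib.Helper12.IntDist.Core
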