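import Mathlib
import Pool.Agent.Lib.Helper12.IntDist.Core1
open Finset

namespace Pool.Agent.Lib.Helper12.IntDist.Core

section comp
variable {κ κ' V : Type} [Fintype κ] [Fintype κ'] [Fintype V] [DecidableEq κ'] [DecidableEq κ] [DecidableEq V]

open Classical in
theorem card_fiber (e : κ ↪ κ') (w : κ → V) :
    (univ.filter (fun y : κ' → V => y ∘ e = w)).card = Fintype.card V ^ (Fintype.card κ' - Fintype.card κ) := by
  have h1 : (univ.filter (fun y : κ' → V => y ∘ e = w)) =
      Fintype.piFinset (fun t : κ' => if h : ∃ i, e i = t then ({w h.choose} : Finset V) else univ) := by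
    ext y
    simp only [Finset.mem_filter, Finset.mem_univ, true_and, Fintype.mem_piFinset]
    constructor
    · intro h t
      split_ifs with ht
      · rw [Finset.mem_singleton, ← h]
        simp only [Function.comp_apply]
        rw [ht.choose_spec]
      · simp
    · intro h
      funext i
      have h2 : ∃ i', e i' = e i := ⟨i, rfl⟩
      have h3 := h (e i)
      rw [dif_pos h2, Finset.mem_singleton] at h3
      have h4 : h2.choose = i := e.injective h2.choose_spec
      rw [h4] at h3
      exact h3
  rw [h1, Fintype.card_piFinset]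
  have h2 : ∀ t : κ', (if h : ∃ i, e i = t then ({w h.choose} : Finset V) else univ).card =
      if t ∈ univ.map e then 1 else Fintype.card V := by
    intro t
    by_cases ht : ∃ i, e i = t
    · rw [dif_pos ht, if_pos (by simpa using ht)]
      simp
    · rw [dif_neg ht, if_neg (by simpa using ht)]
      rfl
  rw [Finset.prod_congr rfl (fun t _ => h2 t)]
  rw [Finset.prod_ite]
  simp only [Finset.prod_const_one, one_mul, Finset.prod_const]
  congr 1
  have h3 : (univ.filter (fun t => t ∉ univ.map e)) = (univ.map e)ᶜ := by
    ext t; simp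
  rw [h3, Finset.card_compl, Finset.card_map, Finset.card_univ]

open Classical in
theorem card_comp (e : κ ↪ κ') (P : (κ → V) → Prop) :
    (univ.filter (fun y : κ' → V => P (y ∘ e))).card =
      (univ.filter P).card * Fintype.card V ^ (Fintype.card κ' - Fintype.card κ) := by
  rw [Finset.card_eq_sum_card_fiberwise (f := fun y : κ' → V => y ∘ e) (t := univ.filter P)]
  · rw [← smul_eq_mul, ← Finset.sum_const]
    apply Finset.sum_congr rfl
    intro w hw
    rw [← card_fiber e w]
    congr 1
    ext y
    simp only [Finset.mem_filter, Finset.mem_univ, true_and] at hw ⊢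
    constructor
    · exact fun h => h.2
    · intro h
      refine ⟨?_, h⟩
      rw [h]; exact hw
  · intro y hy
    simpa using hy

end comp

section
variable {ι α : Type} [Fintype ι] [DecidableEq ι] [Fintype α] [DecidableEq α]

open Classical in
theorem card_online : (univ.filter (fun w : Fin 3 → (ι → α) => OnLine (w 0) (w 1) (w 2))).card ≤
    Fintype.card (ι → α) * (Fintype.card ι * (Fintype.card α * Fintype.card α)) := by
  have hdir : ∀ w : Fin 3 → (ι → α), OnLine (w 0) (w 1) (w 2) → ∃ i, ∀ j, j ≠ i → w 0 j = w 1 j ∧ w 0 j = w 2 j := fun w h => h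
  rcases isEmpty_or_nonempty ι with hι | hι
  · have : (univ.filter (fun w : Fin 3 → (ι → α) => OnLine (w 0) (w 1) (w 2))) = ∅ := by
      rw [Finset.filter_eq_empty_iff]
      rintro w _ ⟨i, _⟩
      exact hι.false i
    rw [this]; simp
  choose! g hg using hdir
  have : Fintype.card (ι → α) * (Fintype.card ι * (Fintype.card α * Fintype.card α)) =
    (univ : Finset ((ι → α) × (ι × (α × α)))).card := by
    rw [Finset.card_univ, Fintype.card_prod, Fintype.card_prod, Fintype.card_prod]
  rw [this]
  apply Finset.card_le_card_of_injOn (fun w => (w 0, (g w, (w 1 (g w), w 2 (g w)))))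
  · intro w _; simp
  · intro w hw w' hw' h
    simp only [Finset.coe_filter, Set.mem_ofPred_eq, Finset.mem_univ, true_and] at hw hw'
    simp only [Prod.mk.injEq] at h
    obtain ⟨h0, h1, h2, h3⟩ := h
    have hA := hg w hw
    have hB := hg w' hw'
    funext t
    fin_cases t
    · exact h0
    · funext j
      change w 1 j = w' 1 j
      by_cases hj : j = g w
      · subst hj
        rw [h2, ← h1]
      · have e1 := (hA j hj).1
        have e2 := (hB j (by rw [← h1]; exact hj)).1
        rw [← e1, ← e2, h0]
    · funext j
      change w 2 j = w' 2 j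
      by_cases hj : j = g w
      · subst hj
        rw [h3, ← h1]
      · have e1 := (hA j hj).2
        have e2 := (hB j (by rw [← h1]; exact hj)).2
        rw [← e1, ← e2, h0]

open Classical in
/-- index triples that are bad -/
noncomputable def badTriples {M : ℕ} (y : Fin M → (ι → α)) : Finset (Fin M × Fin M × Fin M) :=
  univ.filter (fun t => t.1 < t.2.1 ∧ t.2.1 < t.2.2 ∧ OnLine (y t.1) (y t.2.1) (y t.2.2))

open Classical in
theorem sum_badTriples (M : ℕ) :
    ∑ y : Fin M → (ι → α), (badTriples y).card ≤
      M ^ 3 * (Fintype.card (ι → α) ^ (M - 3) * (Fintype.card (ι → α) * (Fintype.card ι * (Fintype.card α * Fintype.card α)))) := by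
  have h1 : ∀ y : Fin M → (ι → α), (badTriples y).card =
      ∑ t : Fin M × Fin M × Fin M, if (t.1 < t.2.1 ∧ t.2.1 < t.2.2 ∧ OnLine (y t.1) (y t.2.1) (y t.2.2)) then 1 else 0 := by
    intro y
    unfold badTriples
    rw [Finset.card_filter]
  simp_rw [h1]
  rw [Finset.sum_comm]
  calc _ ≤ ∑ t : Fin M × Fin M × Fin M, (Fintype.card (ι → α) ^ (M - 3) * (Fintype.card (ι → α) * (Fintype.card ι * (Fintype.card α * Fintype.card α)))) := by
        apply Finset.sum_le_sum
        rintro ⟨i, j, l⟩ _
        simp only
        by_cases hij : i < j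
        · by_cases hjl : j < l
          · simp only [hij, hjl, true_and]
            let e : Fin 3 ↪ Fin M := ⟨![i, j, l], by
              intro a b hab
              fin_cases a <;> fin_cases b <;> simp at hab ⊢ <;> omega⟩
            have hc := card_comp e (fun w : Fin 3 → (ι → α) => OnLine (w 0) (w 1) (w 2))
            rw [← Finset.card_filter]
            have he : (univ.filter (fun y : Fin M → (ι → α) => OnLine (y i) (y j) (y l))) =
              (univ.filter (fun y : Fin M → (ι → α) => OnLine ((y ∘ e) 0) ((y ∘ e) 1) ((y ∘ e) 2))) := rfl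
            rw [he, hc]
            rw [mul_comm]
            simp only [Fintype.card_fin]
            exact Nat.mul_le_mul_left _ card_online
          · simp [hjl]
        · simp [hij]
    _ = _ := by
        rw [Finset.sum_const, Finset.card_univ, Fintype.card_prod, Fintype.card_prod, Fintype.card_fin, smul_eq_mul]
        ring

open Classical in
theorem card_bad1 (M m : ℕ) :
    (univ.filter (fun y : Fin M → (ι → α) => ∃ I : Finset (Fin M), I.card = m ∧ ∀ i ∈ I, ∀ j ∈ I, ¬ HAdj (y i) (y j))).card
      ≤ 2 ^ M * (indepCount m (univ : Finset (ι → α)) * Fintype.card (ι → α) ^ (M - m)) := by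
  have h1 : (univ.filter (fun y : Fin M → (ι → α) => ∃ I : Finset (Fin M), I.card = m ∧ ∀ i ∈ I, ∀ j ∈ I, ¬ HAdj (y i) (y j))) ⊆
      (univ : Finset (Finset (Fin M))).biUnion (fun I => univ.filter (fun y : Fin M → (ι → α) => I.card = m ∧ ∀ i ∈ I, ∀ j ∈ I, ¬ HAdj (y i) (y j))) := by
    intro y hy
    simp only [Finset.mem_filter, Finset.mem_univ, true_and, Finset.mem_biUnion] at hy ⊢
    exact hy
  refine (Finset.card_le_card h1).trans ?_
  refine Finset.card_biUnion_le.trans ?_
  calc _ ≤ ∑ I : Finset (Fin M), (indepCount m (univ : Finset (ι → α)) * Fintype.card (ι → α) ^ (M - m)) := by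
        apply Finset.sum_le_sum
        intro I _
        by_cases hI : I.card = m
        · let e : Fin m ↪ Fin M := (I.orderEmbOfFin hI).toEmbedding
          have hc := card_comp e (fun w : Fin m → (ι → α) => IndepSeq m univ w)
          simp only [Fintype.card_fin] at hc
          unfold indepCount
          rw [← hc]
          apply Finset.card_le_card
          intro y hy
          simp only [Finset.mem_filter, Finset.mem_univ, true_and, IndepSeq] at hy ⊢
          refine ⟨fun _ => trivial, fun i j => ?_⟩
          exact hy.2 _ (Finset.orderEmbOfFin_mem I hI i) _ (Finset.orderEmbOfFin_mem I hI j)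
        · have : (univ.filter (fun y : Fin M → (ι → α) => I.card = m ∧ ∀ i ∈ I, ∀ j ∈ I, ¬ HAdj (y i) (y j))) = ∅ := by
            rw [Finset.filter_eq_empty_iff]
            intro y _ h
            exact hI h.1
          rw [this]; simp
    _ = _ := by
        rw [Finset.sum_const, Finset.card_univ, Fintype.card_finset, Fintype.card_fin, smul_eq_mul]

end

end Pool.Agent.Lib.Helper12.IntDist.Core
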