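import Mathlib
import Pool.Agent.Lib.Helper12.IntDist.Core2
open Finset

namespace Pool.Agent.Lib.Helper12.IntDist.Core

set_option linter.unusedSectionVars false

section
variable {ι α : Type} [Fintype ι] [DecidableEq ι] [Fintype α] [DecidableEq α]

theorem OnLine.perm_swap12 {x y z : ι → α} (h : OnLine x y z) : OnLine y x z := by
  obtain ⟨i, hi⟩ := h
  refine ⟨i, fun j hj => ?_⟩
  obtain ⟨h1, h2⟩ := hi j hj
  exact ⟨h1.symm, h1 ▸ h2⟩

theorem OnLine.perm_swap23 {x y z : ι → α} (h : OnLine x y z) : OnLine x z y := by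
  obtain ⟨i, hi⟩ := h
  refine ⟨i, fun j hj => ?_⟩
  obtain ⟨h1, h2⟩ := hi j hj
  exact ⟨h2, h1⟩

open Classical in
/-- From a good sequence we extract the set `W`. -/
theorem extract (k M m : ℕ) (hk : 0 < k) (hm : 0 < m) (y : Fin M → (ι → α)) (hM : 2 * k * m ≤ M)
    (h1 : ¬ ∃ I : Finset (Fin M), I.card = m ∧ ∀ i ∈ I, ∀ j ∈ I, ¬ HAdj (y i) (y j))
    (h2 : 2 * (badTriples y).card ≤ M) :
    ∃ W : Finset (ι → α), (∀ x ∈ W, ∀ z ∈ W, ∀ w ∈ W, x ≠ z → x ≠ w → z ≠ w → ¬ OnLine x z w) ∧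
      ∀ c : (ι → α) → Fin k, ∃ x ∈ W, ∃ z ∈ W, HAdj x z ∧ c x = c z := by
  set J : Finset (Fin M) := ((badTriples y).image (fun t => t.1))ᶜ with hJ
  have hJcard : k * m ≤ J.card := by
    rw [hJ, Finset.card_compl, Fintype.card_fin]
    have := Finset.card_image_le (s := badTriples y) (f := fun t => t.1)
    have h3 : 2 * (k * m) ≤ M := by rw [← mul_assoc]; exact hM
    omega
  refine ⟨J.image y, ?_, ?_⟩
  · have key : ∀ a ∈ J, ∀ b ∈ J, ∀ c ∈ J, a < b → b < c → ¬ OnLine (y a) (y b) (y c) := by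
      intro a ha b _ c _ hab hbc h
      rw [hJ, Finset.mem_compl] at ha
      apply ha
      rw [Finset.mem_image]
      exact ⟨(a, b, c), by simp only [badTriples, Finset.mem_filter, Finset.mem_univ, true_and]; exact ⟨hab, hbc, h⟩, rfl⟩
    intro x hx z hz w hw hxz hxw hzw h
    rw [Finset.mem_image] at hx hz hw
    obtain ⟨a, ha, rfl⟩ := hx
    obtain ⟨b, hb, rfl⟩ := hz
    obtain ⟨c, hc, rfl⟩ := hw
    have hab : a ≠ b := fun h => hxz (by rw [h])
    have hac : a ≠ c := fun h => hxw (by rw [h])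
    have hbc : b ≠ c := fun h => hzw (by rw [h])
    rcases lt_or_gt_of_ne hab with h1 | h1 <;> rcases lt_or_gt_of_ne hac with h2 | h2 <;>
      rcases lt_or_gt_of_ne hbc with h3 | h3
    · exact key a ha b hb c hc h1 h3 h
    · exact key a ha c hc b hb h2 h3 h.perm_swap23
    · exact absurd (h1.trans h3) (not_lt.2 h2.le)
    · exact key c hc a ha b hb h2 h1 h.perm_swap23.perm_swap12
    · exact key b hb a ha c hc h1 h2 h.perm_swap12
    · exact absurd (h3.trans h1) (not_lt.2 h2.le)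
    · exact key b hb c hc a ha h3 h2 h.perm_swap12.perm_swap23
    · exact key c hc b hb a ha h3 h1 h.perm_swap23.perm_swap12.perm_swap23
  · intro c
    have hlt : (univ : Finset (Fin k)).card * (m - 1) < J.card := by
      rw [Finset.card_univ, Fintype.card_fin]
      have : k * (m - 1) < k * m := Nat.mul_lt_mul_of_pos_left (by omega) hk
      omega
    obtain ⟨col, _, hcol⟩ := Finset.exists_lt_card_fiber_of_mul_lt_card_of_maps_to
      (s := J) (t := (univ : Finset (Fin k))) (f := fun i => c (y i)) (fun _ _ => Finset.mem_univ _) hlt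
    obtain ⟨I, hI, hIcard⟩ := Finset.exists_subset_card_eq (show m ≤ (J.filter (fun i => c (y i) = col)).card by omega)
    have h4 : ∃ i ∈ I, ∃ j ∈ I, HAdj (y i) (y j) := by
      by_contra hno
      push Not at hno
      exact h1 ⟨I, hIcard, hno⟩
    obtain ⟨i, hi, j, hj, hij⟩ := h4
    have hi' := hI hi
    have hj' := hI hj
    rw [Finset.mem_filter] at hi' hj'
    exact ⟨y i, Finset.mem_image_of_mem _ hi'.1, y j, Finset.mem_image_of_mem _ hj'.1, hij, by rw [hi'.2, hj'.2]⟩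

open Classical in
theorem good_seq_exists (k r Q h : ℕ) (hk : 0 < k) (hr : 0 < r) (hh : 0 < h) (hQ : Q = 2 ^ (4 * k + 4))
    (hι : Fintype.card ι = 2 * r) (hα : Fintype.card α = 2 * Q)
    (hN : (2 * Q) ^ (2 * r) = h * r) (hrk : 128 * k ^ 2 * (2 * Q) ^ 2 ≤ r) :
    ∃ y : Fin (4 * k * h) → (ι → α), (¬ ∃ I : Finset (Fin (4 * k * h)), I.card = 2 * h ∧ ∀ i ∈ I, ∀ j ∈ I, ¬ HAdj (y i) (y j)) ∧
      2 * (badTriples y).card ≤ 4 * k * h := by
  set M := 4 * k * h with hM
  set N := h * r with hNdef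
  have hQpos : 0 < Q := by rw [hQ]; positivity
  have hne : Nonempty α := by
    rw [← Fintype.card_pos_iff, hα]; omega
  have hcardV : Fintype.card (ι → α) = N := by
    rw [Fintype.card_fun, hα, hι, hN]
  have hNpos : 0 < N := by positivity
  have hMpos : 0 < M := by positivity
  have hM4 : 4 ≤ M := by
    rw [hM]; 
    calc 4 = 4 * 1 * 1 := by norm_num
      _ ≤ 4 * k * h := by gcongr <;> omega
  set bad1 := (univ.filter (fun y : Fin M → (ι → α) => ∃ I : Finset (Fin M), I.card = 2 * h ∧ ∀ i ∈ I, ∀ j ∈ I, ¬ HAdj (y i) (y j))) with hbad1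
  set bad2 := (univ.filter (fun y : Fin M → (ι → α) => M < 2 * (badTriples y).card)) with hbad2
  have hmM : 2 * h ≤ M := by
    rw [hM]
    calc 2 * h ≤ 4 * 1 * h := by omega
      _ ≤ 4 * k * h := by gcongr; omega
  have hb1 : 4 * bad1.card ≤ N ^ M := by
    have e1 := card_bad1 (ι := ι) (α := α) M (2 * h)
    rw [hcardV] at e1
    have e2 := indepCount_le (ι := ι) (α := α) r Q hr hι hQpos hα (2 * h) univ
    rw [Finset.card_univ, hcardV, hNdef, Nat.mul_div_cancel _ hr] at e2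
    have e3 : 4 * (2 * Q) ^ (2 * r - 1) * Q = 2 * N := by
      rw [← hN]
      have : (2 * Q) ^ (2 * r) = (2 * Q) ^ (2 * r - 1) * (2 * Q) := by
        rw [← pow_succ]; congr 1; omega
      rw [this]; ring
    have e4 : Q ^ (2 * h) * bad1.card ≤ 2 ^ M * ((2 * N) ^ (2 * h) * Q ^ h * N ^ (M - 2 * h)) := by
      calc Q ^ (2 * h) * bad1.card ≤ Q ^ (2 * h) * (2 ^ M * (((4 * (2 * Q) ^ (2 * r - 1)) ^ (2 * h) * Q ^ h) * N ^ (M - 2 * h))) := by
            apply Nat.mul_le_mul_left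
            refine e1.trans ?_
            apply Nat.mul_le_mul_left
            apply Nat.mul_le_mul_right
            exact e2
        _ = 2 ^ M * ((4 * (2 * Q) ^ (2 * r - 1) * Q) ^ (2 * h) * Q ^ h * N ^ (M - 2 * h)) := by
            rw [mul_pow (4 * (2 * Q) ^ (2 * r - 1)) Q]; ring
        _ = _ := by rw [e3]
    have e5 : 2 ^ M * ((2 * N) ^ (2 * h) * Q ^ h * N ^ (M - 2 * h)) = Q ^ h * ((2 ^ (4 * k + 2)) ^ h * N ^ M) := by
      have : N ^ M = N ^ (2 * h) * N ^ (M - 2 * h) := by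
        rw [← pow_add]; congr 1; omega
      rw [this, mul_pow, ← pow_mul]
      have h22 : 2 ^ M * 2 ^ (2 * h) = 2 ^ ((4 * k + 2) * h) := by
        rw [← pow_add, hM]; congr 1; ring
      calc _ = (2 ^ M * 2 ^ (2 * h)) * (N ^ (2 * h) * Q ^ h * N ^ (M - 2 * h)) := by ring
        _ = _ := by rw [h22]; ring
    have e6 : Q ^ (2 * h) = Q ^ h * ((2 ^ (4 * k + 2)) ^ h * 4 ^ h) := by
      rw [← mul_pow, two_mul, pow_add]
      congr 2
      rw [hQ, show (4:ℕ) * k + 4 = (4 * k + 2) + 2 by ring, pow_add]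
      norm_num
    rw [e5, e6] at e4
    have e7 : 4 ^ h * bad1.card ≤ N ^ M := by
      have hpos : 0 < Q ^ h * (2 ^ (4 * k + 2)) ^ h := by positivity
      apply Nat.le_of_mul_le_mul_left _ hpos
      calc _ = Q ^ h * ((2 ^ (4 * k + 2)) ^ h * 4 ^ h) * bad1.card := by ring
        _ ≤ _ := e4
        _ = _ := by ring
    calc 4 * bad1.card ≤ 4 ^ h * bad1.card := by
          apply Nat.mul_le_mul_right
          calc 4 = 4 ^ 1 := by norm_num
            _ ≤ 4 ^ h := Nat.pow_le_pow_right (by norm_num) hh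
      _ ≤ _ := e7
  have hb2 : 2 * bad2.card ≤ N ^ M := by
    have e1 := sum_badTriples (ι := ι) (α := α) M
    rw [hcardV, hι, hα] at e1
    have e2 : M * bad2.card ≤ 2 * ∑ y : Fin M → (ι → α), (badTriples y).card := by
      rw [Finset.mul_sum]
      calc M * bad2.card = ∑ y ∈ bad2, M := by simp [mul_comm]
        _ ≤ ∑ y ∈ bad2, 2 * (badTriples y).card := by
            apply Finset.sum_le_sum
            intro y hy
            rw [hbad2, Finset.mem_filter] at hy
            exact hy.2.le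
        _ ≤ _ := Finset.sum_le_sum_of_subset (Finset.subset_univ _)
    have hpow : N ^ (M - 3) * (N * N ^ 2) = N ^ M := by
      rw [← pow_succ', ← pow_add]; congr 1; omega
    have e3 : 2 * M ^ 3 * (N ^ (M - 3) * (N * (2 * r * (2 * Q * (2 * Q))))) * 2 ≤ M * N ^ M := by
      calc _ = M * (N ^ (M - 3) * (N * (8 * M ^ 2 * r * (2 * Q) ^ 2))) := by ring
        _ ≤ M * (N ^ (M - 3) * (N * N ^ 2)) := by
            gcongr
            calc 8 * M ^ 2 * r * (2 * Q) ^ 2 = (h ^ 2 * r) * (128 * k ^ 2 * (2 * Q) ^ 2) := by rw [hM]; ring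
              _ ≤ (h ^ 2 * r) * r := Nat.mul_le_mul_left _ hrk
              _ = N ^ 2 := by rw [hNdef]; ring
        _ = _ := by rw [hpow]
    apply Nat.le_of_mul_le_mul_left _ hMpos
    calc M * (2 * bad2.card) = 2 * (M * bad2.card) := by ring
      _ ≤ 2 * (2 * ∑ y : Fin M → (ι → α), (badTriples y).card) := Nat.mul_le_mul_left _ e2
      _ ≤ 2 * (2 * (M ^ 3 * (N ^ (M - 3) * (N * (2 * r * (2 * Q * (2 * Q))))))) := by
          apply Nat.mul_le_mul_left; apply Nat.mul_le_mul_left; exact e1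
      _ = 2 * M ^ 3 * (N ^ (M - 3) * (N * (2 * r * (2 * Q * (2 * Q))))) * 2 := by ring
      _ ≤ _ := e3
  have hlt : (bad1 ∪ bad2).card < (univ : Finset (Fin M → (ι → α))).card := by
    have e1 := Finset.card_union_le bad1 bad2
    have e2 : (univ : Finset (Fin M → (ι → α))).card = N ^ M := by
      rw [Finset.card_univ, Fintype.card_fun, hcardV, Fintype.card_fin]
    have e3 : 0 < N ^ M := by positivity
    rw [e2]
    omega
  obtain ⟨y, _, hy⟩ := Finset.exists_mem_notMem_of_card_lt_card hlt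
  rw [Finset.mem_union, not_or] at hy
  refine ⟨y, ?_, ?_⟩
  · intro h
    apply hy.1
    rw [hbad1, Finset.mem_filter]
    exact ⟨Finset.mem_univ _, h⟩
  · by_contra h
    apply hy.2
    rw [hbad2, Finset.mem_filter]
    exact ⟨Finset.mem_univ _, by omega⟩

end

/-- **Combinatorial core.** For every `k ≥ 1` there is a finite set `W` in some Hamming space, with at most two points
on every axis-parallel line, such that every `k`-colouring has two points of `W` of the same colour on an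
axis-parallel line. -/
theorem core (k : ℕ) (hk : 0 < k) : ∃ (n q : ℕ) (W : Finset (Fin n → Fin q)),
    (∀ x ∈ W, ∀ z ∈ W, ∀ w ∈ W, x ≠ z → x ≠ w → z ≠ w → ¬ OnLine x z w) ∧
      ∀ c : (Fin n → Fin q) → Fin k, ∃ x ∈ W, ∃ z ∈ W, HAdj x z ∧ c x = c z := by
  obtain ⟨Q, hQ⟩ : ∃ Q, Q = 2 ^ (4 * k + 4) := ⟨_, rfl⟩
  obtain ⟨r, hr⟩ : ∃ r, r = 2 ^ (10 * k + 17) := ⟨_, rfl⟩
  have h2Q : 2 * Q = 2 ^ (4 * k + 5) := by rw [hQ, ← pow_succ']
  have hle : 10 * k + 17 ≤ (4 * k + 5) * (2 * r) := by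
    have h1 : 10 * k + 17 < r := by rw [hr]; exact Nat.lt_two_pow_self
    nlinarith
  obtain ⟨h, hh⟩ : ∃ h, h = 2 ^ ((4 * k + 5) * (2 * r) - (10 * k + 17)) := ⟨_, rfl⟩
  have hN : (2 * Q) ^ (2 * r) = h * r := by
    have e1 : h * r = 2 ^ ((4 * k + 5) * (2 * r) - (10 * k + 17)) * 2 ^ (10 * k + 17) := by rw [← hh, ← hr]
    rw [e1, h2Q, ← pow_mul, ← pow_add]
    congr 1
    omega
  have hQ0 : 0 < Q := by rw [hQ]; positivity
  have hr0 : 0 < r := by rw [hr]; positivity
  have hh0 : 0 < h := by rw [hh]; positivity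
  have hrk : 128 * k ^ 2 * (2 * Q) ^ 2 ≤ r := by
    rw [h2Q, hr, ← pow_mul]
    have h1 : k ^ 2 ≤ 2 ^ (2 * k) := by
      rw [mul_comm, pow_mul]
      exact Nat.pow_le_pow_left Nat.lt_two_pow_self.le 2
    calc 128 * k ^ 2 * 2 ^ ((4 * k + 5) * 2) ≤ 2 ^ 7 * 2 ^ (2 * k) * 2 ^ ((4 * k + 5) * 2) := by
          gcongr
          norm_num
      _ = _ := by rw [← pow_add, ← pow_add]; congr 1; ring
  obtain ⟨y, h1, h2⟩ := good_seq_exists (ι := Fin (2 * r)) (α := Fin (2 * Q)) k r Q h hk hr0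
    hh0 hQ (by simp) (by simp) hN hrk
  obtain ⟨W, hW⟩ := extract k (4 * k * h) (2 * h) hk (by omega) y (by apply le_of_eq; ring) h1 h2
  exact ⟨2 * r, 2 * Q, W, hW⟩

end Pool.Agent.Lib.Helper12.IntDist.Core
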