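import Mathlib

/-!
# Integer-distance graphs of point sets in general position: definitions
-/

namespace Pool.Agent.Lib.Helper12.IntDist

/-- The Euclidean plane. -/
abbrev Plane : Type := EuclideanSpace ℝ (Fin 2)

/-- A set `A` of points of the plane is *admissible* if it is infinite, no line contains three of
its points, and no circle contains four of its points. -/
def Admissible (A : Set Plane) : Prop :=
  A.Infinite ∧
  (∀ x ∈ A, ∀ y ∈ A, ∀ z ∈ A, x ≠ y → x ≠ z → y ≠ z → ¬ Collinear ℝ ({x, y, z} : Set Plane)) ∧
  (∀ x ∈ A, ∀ y ∈ A, ∀ z ∈ A, ∀ w ∈ A, x ≠ y → x ≠ z → x ≠ w → y ≠ z → y ≠ w → z ≠ w →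
    ¬ EuclideanGeometry.Cospherical ({x, y, z, w} : Set Plane))

/-- The integer-distance graph `G_A`: its vertices are the points of `A`, and two distinct points
are adjacent exactly when their Euclidean distance is an integer. -/
def distGraph (A : Set Plane) : SimpleGraph A where
  Adj x y := x ≠ y ∧ ∃ m : ℤ, dist (x : Plane) (y : Plane) = m
  symm := ⟨fun x y h => ⟨h.1.symm, by rw [dist_comm]; exact h.2⟩⟩
  loopless := ⟨fun x h => h.1 rfl⟩

/-- The chromatic number as a cardinal: the least cardinal `κ` such that `G` has a proper colouring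
whose set of colours has cardinality `κ`. -/
noncomputable def chromaticCard {V : Type} (G : SimpleGraph V) : Cardinal.{0} :=
  sInf {κ | ∃ α : Type, Cardinal.mk α = κ ∧ Nonempty (G.Coloring α)}

end Pool.Agent.Lib.Helper12.IntDist
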