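import Mathlib
open Cardinal Set

namespace Pool.Agent.Lib.Helper12.IntDist.EH

variable {V : Type} (G : SimpleGraph V)

/-- common neighbours of two distinct vertices -/
def CN (x y : V) : Set V := {z | x ≠ y ∧ G.Adj x z ∧ G.Adj y z}

def next (X : Set V) : Set V := X ∪ ⋃ p : X × X, CN G p.1.1 p.2.1

def clN (X : Set V) : ℕ → Set V
  | 0 => X
  | n + 1 => next G (clN X n)

def cl (X : Set V) : Set V := ⋃ n, clN G X n

theorem subset_cl (X : Set V) : X ⊆ cl G X := Set.subset_iUnion (clN G X) 0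

theorem clN_mono_n (X : Set V) : Monotone (clN G X) := by
  apply monotone_nat_of_le_succ
  intro n
  exact Set.subset_union_left

theorem next_mono {X Y : Set V} (h : X ⊆ Y) : next G X ⊆ next G Y := by
  rintro z (hz | hz)
  · exact Or.inl (h hz)
  · obtain ⟨⟨x, y⟩, hz⟩ := Set.mem_iUnion.1 hz
    exact Or.inr (Set.mem_iUnion.2 ⟨(⟨x.1, h x.2⟩, ⟨y.1, h y.2⟩), hz⟩)

theorem clN_mono {X Y : Set V} (h : X ⊆ Y) (n : ℕ) : clN G X n ⊆ clN G Y n := by
  induction n with
  | zero => exact h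
  | succ n ih => exact next_mono G ih

theorem cl_mono {X Y : Set V} (h : X ⊆ Y) : cl G X ⊆ cl G Y :=
  Set.iUnion_mono (fun n => clN_mono G h n)

theorem cl_closed (X : Set V) {x y z : V} (hx : x ∈ cl G X) (hy : y ∈ cl G X) (hxy : x ≠ y) (h1 : G.Adj x z) (h2 : G.Adj y z) :
    z ∈ cl G X := by
  obtain ⟨i, hi⟩ := Set.mem_iUnion.1 hx
  obtain ⟨j, hj⟩ := Set.mem_iUnion.1 hy
  apply Set.mem_iUnion.2
  refine ⟨max i j + 1, Or.inr (Set.mem_iUnion.2 ⟨(⟨x, clN_mono_n G X (le_max_left i j) hi⟩, ⟨y, clN_mono_n G X (le_max_right i j) hj⟩), hxy, h1, h2⟩)⟩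

theorem mk_next (hG : ∀ x y, (CN G x y).Countable) (X : Set V) (μ : Cardinal.{0}) (hμ : ℵ₀ ≤ μ) (hX : #X ≤ μ) :
    #(next G X) ≤ μ := by
  unfold next
  refine (mk_union_le _ _).trans ?_
  have h1 : #(⋃ p : X × X, CN G p.1.1 p.2.1 : Set V) ≤ μ := by
    refine (mk_iUnion_le_sum_mk).trans ?_
    refine (sum_le_sum _ (fun _ => ℵ₀) (fun p => ?_)).trans ?_
    · exact le_aleph0_iff_set_countable.2 (hG _ _)
    · simp only [sum_const, lift_id, mk_prod]
      calc #X * #X * ℵ₀ ≤ μ * μ * μ := mul_le_mul' (mul_le_mul' hX hX) hμ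
        _ = μ := by rw [mul_eq_self hμ, mul_eq_self hμ]
  calc #X + #(⋃ p : X × X, CN G p.1.1 p.2.1 : Set V) ≤ μ + μ := add_le_add hX h1
    _ = μ := add_eq_self hμ

theorem mk_cl (hG : ∀ x y, (CN G x y).Countable) (X : Set V) (μ : Cardinal.{0}) (hμ : ℵ₀ ≤ μ) (hX : #X ≤ μ) :
    #(cl G X) ≤ μ := by
  have h1 : ∀ n, #(clN G X n) ≤ μ := by
    intro n
    induction n with
    | zero => exact hX
    | succ n ih => exact mk_next G hG _ μ hμ ih
  unfold cl
  refine (mk_iUnion_le_sum_mk).trans ?_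
  refine (sum_le_sum _ (fun _ => μ) h1).trans ?_
  rw [sum_const, lift_id, lift_id, mk_nat]
  calc ℵ₀ * μ ≤ μ * μ := mul_le_mul' hμ le_rfl
    _ = μ := mul_eq_self hμ

/-- list-colourability with finite forbidden sets -/
def LC (S : Set V) : Prop := ∀ F : V → Finset ℕ, ∃ c : V → ℕ, (∀ x ∈ S, c x ∉ F x) ∧
  ∀ x ∈ S, ∀ y ∈ S, G.Adj x y → c x ≠ c y

theorem LC_countable (S : Set V) (hS : S.Countable) : LC G S := by
  intro F
  obtain ⟨e, he⟩ := Set.countable_iff_exists_injOn.1 hS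
  have h : ∀ x : V, ∃ j : ℕ, Nat.pair (e x) j ∉ F x := by
    intro x
    by_contra hcon
    push Not at hcon
    have hinj : Function.Injective (fun j : ℕ => Nat.pair (e x) j) := by
      intro a b hab
      exact (Nat.pair_eq_pair.1 hab).2
    have : (Set.univ : Set ℕ).Finite := by
      apply Set.Finite.of_finite_image (f := fun j : ℕ => Nat.pair (e x) j) _ hinj.injOn
      apply (F x).finite_toSet.subset
      rintro _ ⟨j, _, rfl⟩
      exact hcon j
    exact Set.infinite_univ this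
  choose j hj using h
  refine ⟨fun x => Nat.pair (e x) (j x), fun x _ => hj x, ?_⟩
  intro x hx y hy hadj h
  have := (Nat.pair_eq_pair.1 h).1
  exact G.ne_of_adj hadj (he hx hy this)

theorem LC_all (hG : ∀ x y, (CN G x y).Countable) (S : Set V) : LC G S := by
  classical
  -- strong induction on the cardinality
  have main : ∀ κ : Cardinal.{0}, ∀ S : Set V, #S = κ → LC G S := by
    intro κ
    induction κ using WellFoundedLT.induction with
    | ind κ ih =>
    intro S hS
    rcases le_or_gt κ ℵ₀ with hκ | hκ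
    · exact LC_countable G S (le_aleph0_iff_set_countable.1 (hS ▸ hκ))
    intro F
    obtain ⟨lo, wf, hord⟩ := Cardinal.exists_ord_eq_type_lt ↥S
    -- closures of initial segments
    let I : ↥S → Set V := fun s => cl G ((fun t : ↥S => (t : V)) '' (Set.Iic s))
    have hImono : ∀ s t : ↥S, s ≤ t → I s ⊆ I t := by
      intro s t hst
      apply cl_mono
      apply Set.image_mono
      exact Set.Iic_subset_Iic.2 hst
    have hIcard : ∀ s : ↥S, #(I s) < κ := by
      intro s
      have h1 : #(Set.Iio s) < κ := by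
        have := Cardinal.mk_Iio_lt s hord
        rwa [hS] at this
      have h2 : #(Set.Iic s) < κ := by
        have h3 : Set.Iic s = insert s (Set.Iio s) := by
          ext t; simp [le_iff_eq_or_lt]
        rw [h3]
        refine lt_of_le_of_lt (mk_insert_le) ?_
        exact add_lt_of_lt hκ.le h1 (lt_of_lt_of_le one_lt_aleph0 hκ.le)
      have h4 : #((fun t : ↥S => (t : V)) '' (Set.Iic s)) ≤ max (#(Set.Iic s)) ℵ₀ := mk_image_le.trans (le_max_left _ _)
      have h5 := mk_cl G hG _ _ (le_max_right _ _) h4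
      exact lt_of_le_of_lt h5 (max_lt h2 hκ)
    have hex : ∀ v : ↥S, ∃ s : ↥S, (v : V) ∈ I s := fun v => ⟨v, subset_cl G _ ⟨v, Set.mem_Iic.2 le_rfl, rfl⟩⟩
    -- rank
    let ρ : ↥S → ↥S := fun v => wf.wf.min {s | (v : V) ∈ I s} (hex v)
    have hρmem : ∀ v : ↥S, (v : V) ∈ I (ρ v) := fun v => wf.wf.min_mem _ (hex v)
    have hρmin : ∀ (v s : ↥S), (v : V) ∈ I s → ρ v ≤ s := by
      intro v s h
      exact not_lt.1 (wf.wf.not_lt_min _ h)
    have huniq : ∀ v u u' : ↥S, G.Adj v u → G.Adj v u' → ρ u < ρ v → ρ u' < ρ v → u = u' := by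
      intro v u u' h1 h2 h3 h4
      by_contra hne
      have hlt : max (ρ u) (ρ u') < ρ v := max_lt h3 h4
      have hu : (u : V) ∈ I (max (ρ u) (ρ u')) := hImono _ _ (le_max_left _ _) (hρmem u)
      have hu' : (u' : V) ∈ I (max (ρ u) (ρ u')) := hImono _ _ (le_max_right _ _) (hρmem u')
      have hv : (v : V) ∈ I (max (ρ u) (ρ u')) := cl_closed G _ hu hu' (fun h => hne (Subtype.ext h)) h1.symm h2.symm
      exact absurd (hρmin v _ hv) (not_le.2 hlt)
    -- layers
    let L : ↥S → Set V := fun s => {v | ∃ h : v ∈ S, ρ ⟨v, h⟩ = s}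
    have hLcard : ∀ s, #(L s) < κ := by
      intro s
      refine lt_of_le_of_lt (mk_le_mk_of_subset ?_) (hIcard s)
      rintro v ⟨h, rfl⟩
      exact hρmem ⟨v, h⟩
    have hLC : ∀ s, LC G (L s) := fun s => ih _ (hLcard s) (L s) rfl
    -- forbidden sets given colourings of the earlier layers
    let FF : (s : ↥S) → ((t : ↥S) → t < s → (V → ℕ)) → V → Finset ℕ := fun s col v =>
      F v ∪ (if h : ∃ u : ↥S, G.Adj v u ∧ ρ u < s then {col (ρ h.choose) h.choose_spec.2 h.choose} else ∅)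
    let col : ↥S → V → ℕ := wf.wf.fix (C := fun _ => V → ℕ) (fun s rec => (hLC s (FF s rec)).choose)
    have hcol : ∀ s, col s = (hLC s (FF s (fun t _ => col t))).choose := by
      intro s
      exact wf.wf.fix_eq (C := fun _ => V → ℕ) (fun s rec => (hLC s (FF s rec)).choose) s
    have hcol1 : ∀ s, ∀ x ∈ L s, col s x ∉ FF s (fun t _ => col t) x := by
      intro s
      rw [hcol s]
      exact (hLC s (FF s (fun t _ => col t))).choose_spec.1
    have hcol2 : ∀ s, ∀ x ∈ L s, ∀ y ∈ L s, G.Adj x y → col s x ≠ col s y := by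
      intro s
      rw [hcol s]
      exact (hLC s (FF s (fun t _ => col t))).choose_spec.2
    have hdiff : ∀ v w : ↥S, G.Adj v w → ρ w < ρ v → col (ρ v) v ≠ col (ρ w) w := by
      intro v w hadj hlt heq
      have h1 := hcol1 (ρ v) v ⟨v.2, rfl⟩
      apply h1
      simp only [FF]
      rw [Finset.mem_union]
      right
      have hexu : ∃ u : ↥S, G.Adj v u ∧ ρ u < ρ v := ⟨w, hadj, hlt⟩
      rw [dif_pos hexu, Finset.mem_singleton]
      have : hexu.choose = w := huniq v _ _ hexu.choose_spec.1 hadj hexu.choose_spec.2 hlt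
      rw [this]
      exact heq
    refine ⟨fun v => if h : v ∈ S then col (ρ ⟨v, h⟩) v else 0, ?_, ?_⟩
    · intro v hv
      simp only [dif_pos hv]
      have h1 := hcol1 (ρ ⟨v, hv⟩) v ⟨hv, rfl⟩
      simp only [FF] at h1
      rw [Finset.mem_union, not_or] at h1
      exact h1.1
    · intro x hx y hy hadj
      simp only [dif_pos hx, dif_pos hy]
      rcases lt_trichotomy (ρ ⟨x, hx⟩) (ρ ⟨y, hy⟩) with h | h | h
      · exact (hdiff ⟨y, hy⟩ ⟨x, hx⟩ hadj.symm h).symm
      · rw [← h]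
        exact hcol2 _ x ⟨hx, rfl⟩ y ⟨hy, h.symm⟩ hadj
      · exact hdiff ⟨x, hx⟩ ⟨y, hy⟩ hadj h
  exact main _ S rfl

end Pool.Agent.Lib.Helper12.IntDist.EH
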