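import Mathlib
open Finset

namespace Pool.Agent.Lib.Helper12.IntDist.Geo

/-- polynomial functions -/
def IsPoly {σ : Type} (f : (σ → ℂ) → ℂ) : Prop := ∃ p : MvPolynomial σ ℂ, ∀ x, MvPolynomial.eval x p = f x

section
variable {σ : Type}

theorem IsPoly.const (c : ℂ) : IsPoly (fun _ : σ → ℂ => c) := ⟨MvPolynomial.C c, fun x => by simp⟩
theorem IsPoly.coord (i : σ) : IsPoly (fun x : σ → ℂ => x i) := ⟨MvPolynomial.X i, fun x => by simp⟩
theorem IsPoly.add {f g : (σ → ℂ) → ℂ} (hf : IsPoly f) (hg : IsPoly g) : IsPoly (fun x => f x + g x) := by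
  obtain ⟨p, hp⟩ := hf
  obtain ⟨q, hq⟩ := hg
  exact ⟨p + q, fun x => by simp [hp, hq]⟩
theorem IsPoly.sub {f g : (σ → ℂ) → ℂ} (hf : IsPoly f) (hg : IsPoly g) : IsPoly (fun x => f x - g x) := by
  obtain ⟨p, hp⟩ := hf
  obtain ⟨q, hq⟩ := hg
  exact ⟨p - q, fun x => by simp [hp, hq]⟩
theorem IsPoly.mul {f g : (σ → ℂ) → ℂ} (hf : IsPoly f) (hg : IsPoly g) : IsPoly (fun x => f x * g x) := by
  obtain ⟨p, hp⟩ := hf
  obtain ⟨q, hq⟩ := hg
  exact ⟨p * q, fun x => by simp [hp, hq]⟩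
theorem IsPoly.pow {f : (σ → ℂ) → ℂ} (hf : IsPoly f) (n : ℕ) : IsPoly (fun x => f x ^ n) := by
  obtain ⟨p, hp⟩ := hf
  exact ⟨p ^ n, fun x => by simp [hp]⟩
theorem IsPoly.sum {ι : Type} (s : Finset ι) {f : ι → (σ → ℂ) → ℂ} (hf : ∀ i ∈ s, IsPoly (f i)) :
    IsPoly (fun x => ∑ i ∈ s, f i x) := by
  classical
  induction s using Finset.induction_on with
  | empty => simpa using IsPoly.const 0
  | insert a s ha ih =>
    simp_rw [Finset.sum_insert ha]
    exact (hf a (Finset.mem_insert_self _ _)).add (ih (fun i hi => hf i (Finset.mem_insert_of_mem hi)))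

/-- avoid finitely many hypersurfaces by an integer point -/
theorem avoid {J : Type} (s : Finset J) (f : J → (σ → ℂ) → ℂ) (hf : ∀ j ∈ s, IsPoly (f j))
    (hne : ∀ j ∈ s, ∃ x, f j x ≠ 0) : ∃ n : σ → ℤ, ∀ j ∈ s, f j (fun i => (n i : ℂ)) ≠ 0 := by
  classical
  choose! p hp using hf
  have hp0 : ∀ j ∈ s, p j ≠ 0 := by
    intro j hj h0
    obtain ⟨x, hx⟩ := hne j hj
    apply hx
    rw [← hp j hj, h0, map_zero]
  have hprod : ∏ j ∈ s, p j ≠ 0 := Finset.prod_ne_zero_iff.2 hp0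
  by_contra hcon
  push Not at hcon
  apply hprod
  apply MvPolynomial.funext_set (fun _ => Set.range (fun n : ℤ => (n : ℂ)))
  · intro _
    exact Set.infinite_range_of_injective Int.cast_injective
  · intro x hx
    have hx' : ∀ i, ∃ n : ℤ, (n : ℂ) = x i := fun i => hx i (Set.mem_univ _)
    choose n hn using hx'
    obtain ⟨j, hj, hj0⟩ := hcon n
    rw [map_prod, map_zero]
    apply Finset.prod_eq_zero hj
    rw [hp j hj, ← hj0]
    congr 1
    funext i
    exact (hn i).symm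

end

/-- formal collinearity determinant -/
def col (a a' b b' c c' : ℂ) : ℂ := (b - a) * (c' - a') - (b' - a') * (c - a)

/-- formal concyclicity expression -/
def conc (a a' b b' c c' d d' : ℂ) : ℂ :=
  (a - c) * (b - d) * ((b' - c') * (a' - d')) - (a' - c') * (b' - d') * ((b - c) * (a - d))

open ComplexConjugate in
/-- general position for a set of complex numbers, in algebraic form -/
def GP (S : Set ℂ) : Prop :=
  (∀ x ∈ S, ∀ y ∈ S, ∀ z ∈ S, x ≠ y → x ≠ z → y ≠ z → col x (conj x) y (conj y) z (conj z) ≠ 0) ∧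
  (∀ x ∈ S, ∀ y ∈ S, ∀ z ∈ S, ∀ w ∈ S, x ≠ y → x ≠ z → x ≠ w → y ≠ z → y ≠ w → z ≠ w →
    conc x (conj x) y (conj y) z (conj z) w (conj w) ≠ 0)

theorem exists_avoid_two {A B A' B' : ℂ} (hA : A ≠ 0) (hB : B' ≠ 0) : ∃ c : ℂ, A + c * B ≠ 0 ∧ A' + c * B' ≠ 0 := by
  have hfin : ({c : ℂ | A + c * B = 0} ∪ {c : ℂ | A' + c * B' = 0}).Finite := by
    apply Set.Finite.union
    · apply Set.Subsingleton.finite
      intro c hc d hd
      simp only [Set.mem_ofPred_eq] at hc hd
      have hB0 : B ≠ 0 := by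
        intro h; rw [h] at hc; simp at hc; exact hA hc
      have : (c - d) * B = 0 := by linear_combination hc - hd
      rcases mul_eq_zero.1 this with h | h
      · exact sub_eq_zero.1 h
      · exact absurd h hB0
    · apply Set.Subsingleton.finite
      intro c hc d hd
      simp only [Set.mem_ofPred_eq] at hc hd
      have : (c - d) * B' = 0 := by linear_combination hc - hd
      rcases mul_eq_zero.1 this with h | h
      · exact sub_eq_zero.1 h
      · exact absurd h hB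
  obtain ⟨c, hc⟩ := hfin.infinite_compl.nonempty
  simp only [Set.mem_compl_iff, Set.mem_union, Set.mem_ofPred_eq, not_or] at hc
  exact ⟨c, hc.1, hc.2⟩

end Pool.Agent.Lib.Helper12.IntDist.Geo
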