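import Mathlib
import Pool.Agent.Lib.Helper12.IntDist.Core3
import Pool.Agent.Lib.Helper12.IntDist.Geo1
open Finset

namespace Pool.Agent.Lib.Helper12.IntDist.Geo

set_option linter.unusedSectionVars false
open Pool.Agent.Lib.Helper12.IntDist.Core

section
variable {ι α : Type} [Fintype ι] [DecidableEq ι] [Fintype α] [DecidableEq α]

/-- the minor -/
def minor {R : Type} [CommRing R] (τ : ι × α → R) (x y w : ι → α) (i j : ι) : R :=
  (τ (i, y i) - τ (i, x i)) * (τ (j, w j) - τ (j, x j)) - (τ (j, y j) - τ (j, x j)) * (τ (i, w i) - τ (i, x i))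

theorem minor_swap {R : Type} [CommRing R] (τ : ι × α → R) (x y w : ι → α) (i j : ι) :
    minor τ x w y i j = - minor τ x y w i j := by
  unfold minor; ring

/-- For three distinct points that are not on an axis-parallel line some minor is not identically zero. -/
theorem exists_minor {x y w : ι → α} (hxy : x ≠ y) (hxw : x ≠ w) (hyw : y ≠ w) (h : ¬ OnLine x y w) :
    ∃ i j, ∃ τ : ι × α → ℂ, minor τ x y w i j ≠ 0 := by
  classical
  -- indicator functions
  have key : ∀ i j, i ≠ j → ∀ (f g : α → ℂ), (f (y i) - f (x i)) * (g (w j) - g (x j)) - (g (y j) - g (x j)) * (f (w i) - f (x i)) ≠ 0 →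
      ∃ i j, ∃ τ : ι × α → ℂ, minor τ x y w i j ≠ 0 := by
    intro i j hij f g hne
    refine ⟨i, j, fun p => if p.1 = i then f p.2 else g p.2, ?_⟩
    unfold minor
    simp only [if_true, if_neg (Ne.symm hij)]
    exact hne
  by_cases hA : ∃ i, x i ≠ y i ∧ x i ≠ w i ∧ y i ≠ w i
  · obtain ⟨i, h1, h2, h3⟩ := hA
    -- another coordinate where not all equal
    have : ∃ j, j ≠ i ∧ ¬ (x j = y j ∧ x j = w j) := by
      by_contra hcon
      push Not at hcon
      exact h ⟨i, fun j hj => hcon j hj⟩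
    obtain ⟨j, hji, hj⟩ := this
    by_cases hwj : w j = x j
    · have hyj : y j ≠ x j := fun hh => hj ⟨hh.symm, hwj.symm⟩
      apply key i j hji.symm (fun a => if a = w i then 1 else 0) (fun a => if a = y j then 1 else 0)
      simp [hwj, h2, hyj.symm]
    · apply key i j hji.symm (fun a => if a = y i then 1 else 0) (fun a => if a = w j then 1 else 0)
      simp [h1, Ne.symm h3, Ne.symm hwj]
  · push Not at hA
    -- coordinate where x and y differ
    obtain ⟨i, hi⟩ : ∃ i, x i ≠ y i := by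
      by_contra hcon; push Not at hcon; exact hxy (funext hcon)
    by_cases hwi : x i = w i
    · -- pattern y | x w at i
      obtain ⟨j, hj⟩ : ∃ j, x j ≠ w j := by
        by_contra hcon; push Not at hcon; exact hxw (funext hcon)
      have hij : i ≠ j := by rintro rfl; exact hj hwi
      apply key i j hij (fun a => if a = y i then 1 else 0) (fun a => if a = w j then 1 else 0)
      simp [hi, ← hwi, hj]
    · -- pattern x | y w at i
      have hyw' : y i = w i := hA i hi hwi
      obtain ⟨j, hj⟩ : ∃ j, y j ≠ w j := by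
        by_contra hcon; push Not at hcon; exact hyw (funext hcon)
      have hij : i ≠ j := by rintro rfl; exact hj hyw'
      by_cases hxj : x j = y j
      · -- x j = y j ≠ w j
        have hxwj : x j ≠ w j := by rw [hxj]; exact hj
        apply key i j hij (fun a => if a = y i then 1 else 0) (fun a => if a = w j then 1 else 0)
        simp [hi, hxj, hj]
      · have hxwj : x j = w j := by
          by_contra hne
          exact hj (hA j hxj hne)
        apply key i j hij (fun a => if a = y i then 1 else 0) (fun a => if a = y j then 1 else 0)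
        simp [hi, ← hyw', hxj, ← hxwj]

theorem isPoly_minor (x y w : ι → α) (i j : ι) : IsPoly (fun τ : ι × α → ℂ => minor τ x y w i j) := by
  unfold minor
  exact ((((IsPoly.coord _).sub (IsPoly.coord _)).mul ((IsPoly.coord _).sub (IsPoly.coord _)))).sub
    ((((IsPoly.coord _).sub (IsPoly.coord _)).mul ((IsPoly.coord _).sub (IsPoly.coord _))))

/-- Stage 1: generic integer coordinates. -/
theorem stage1 [Nonempty ι] (W : Finset (ι → α))
    (hW : ∀ x ∈ W, ∀ z ∈ W, ∀ w ∈ W, x ≠ z → x ≠ w → z ≠ w → ¬ OnLine x z w) :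
    ∃ τ : ι × α → ℤ, (∀ i a b, a ≠ b → τ (i, a) ≠ τ (i, b)) ∧
      ∀ x ∈ W, ∀ y ∈ W, ∀ w ∈ W, x ≠ y → x ≠ w → y ≠ w → ∃ i j, minor τ x y w i j ≠ 0 := by
  classical
  -- index set
  let J : Type := (ι × α × α) ⊕ ((ι → α) × (ι → α) × (ι → α))
  have hc : ∀ t : (ι → α) × (ι → α) × (ι → α), ∃ ij : ι × ι, (t.1 ≠ t.2.1 → t.1 ≠ t.2.2 → t.2.1 ≠ t.2.2 → ¬ OnLine t.1 t.2.1 t.2.2 →
      ∃ τ : ι × α → ℂ, minor τ t.1 t.2.1 t.2.2 ij.1 ij.2 ≠ 0) := by
    rintro ⟨x, y, w⟩
    by_cases h : x ≠ y ∧ x ≠ w ∧ y ≠ w ∧ ¬ OnLine x y w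
    · obtain ⟨h1, h2, h3, h4⟩ := h
      obtain ⟨i, j, τ, hτ⟩ := exists_minor h1 h2 h3 h4
      exact ⟨(i, j), fun _ _ _ _ => ⟨τ, hτ⟩⟩
    · exact ⟨(Classical.arbitrary _, Classical.arbitrary _), fun h1 h2 h3 h4 => absurd ⟨h1, h2, h3, h4⟩ h⟩
  choose g hg using hc
  let f : J → ((ι × α → ℂ) → ℂ) := fun j => match j with
    | Sum.inl (i, a, b) => fun τ => τ (i, a) - τ (i, b)
    | Sum.inr t => fun τ => minor τ t.1 t.2.1 t.2.2 (g t).1 (g t).2
  let s : Finset J := univ.filter (fun j => match j with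
    | Sum.inl (_, a, b) => a ≠ b
    | Sum.inr t => t.1 ∈ W ∧ t.2.1 ∈ W ∧ t.2.2 ∈ W ∧ t.1 ≠ t.2.1 ∧ t.1 ≠ t.2.2 ∧ t.2.1 ≠ t.2.2)
  have hpoly : ∀ j ∈ s, IsPoly (f j) := by
    rintro (⟨i, a, b⟩ | t) _
    · exact (IsPoly.coord _).sub (IsPoly.coord _)
    · exact isPoly_minor _ _ _ _ _
  have hnz : ∀ j ∈ s, ∃ x, f j x ≠ 0 := by
    rintro (⟨i, a, b⟩ | t) hj
    · simp only [s, Finset.mem_filter, Finset.mem_univ, true_and] at hj
      refine ⟨fun p => if p = (i, a) then 1 else 0, ?_⟩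
      simp [f, Ne.symm hj]
    · simp only [s, Finset.mem_filter, Finset.mem_univ, true_and] at hj
      obtain ⟨h1, h2, h3, h4, h5, h6⟩ := hj
      exact hg t h4 h5 h6 (hW _ h1 _ h2 _ h3 h4 h5 h6)
  obtain ⟨n, hn⟩ := avoid s f hpoly hnz
  · refine ⟨n, ?_, ?_⟩
    · intro i a b hab h
      have := hn (Sum.inl (i, a, b)) (by simp [s, hab])
      apply this
      simp only [f]
      rw [h, sub_self]
    · intro x hx y hy w hw hxy hxw hyw
      have := hn (Sum.inr (x, y, w)) (by simp [s, hx, hy, hw, hxy, hxw, hyw])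
      refine ⟨(g (x, y, w)).1, (g (x, y, w)).2, fun h0 => this ?_⟩
      simp only [f]
      have h1 : (minor (fun p => (n p : ℂ)) x y w (g (x, y, w)).1 (g (x, y, w)).2) =
        ((minor n x y w (g (x, y, w)).1 (g (x, y, w)).2 : ℤ) : ℂ) := by
        unfold minor; push_cast; ring
      rw [h1, h0, Int.cast_zero]

end

end Pool.Agent.Lib.Helper12.IntDist.Geo
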