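import Mathlib
import Pool.Agent.Lib.Helper12.IntDist.Geo2
open Finset

namespace Pool.Agent.Lib.Helper12.IntDist.Geo
open Pool.Agent.Lib.Helper12.IntDist.Core

set_option linter.unusedSectionVars false

section
variable {ι : Type} [Fintype ι] [DecidableEq ι]

/-- linear form -/
def lin (D u : ι → ℂ) : ℂ := ∑ i, D i * u i

theorem lin_sub (D E u : ι → ℂ) : lin D u - lin E u = lin (D - E) u := by
  unfold lin
  rw [← Finset.sum_sub_distrib]
  apply Finset.sum_congr rfl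
  intro i _
  simp only [Pi.sub_apply]; ring

theorem lin_single (D : ι → ℂ) (i : ι) : lin D (Pi.single i 1) = D i := by
  unfold lin
  simp [Pi.single_apply]

theorem lin_add (D u v : ι → ℂ) : lin D (u + v) = lin D u + lin D v := by
  unfold lin
  rw [← Finset.sum_add_distrib]
  apply Finset.sum_congr rfl
  intro i _
  simp only [Pi.add_apply]; ring

theorem lin_smul (D : ι → ℂ) (c : ℂ) (u : ι → ℂ) : lin D (c • u) = c * lin D u := by
  unfold lin
  rw [Finset.mul_sum]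
  apply Finset.sum_congr rfl
  intro i _
  simp only [Pi.smul_apply, smul_eq_mul]; ring

noncomputable def uu (p : ι × Bool → ℂ) (i : ι) : ℂ := (p (i, false) + Complex.I * p (i, true)) ^ 2
noncomputable def vv (p : ι × Bool → ℂ) (i : ι) : ℂ := (p (i, false) - Complex.I * p (i, true)) ^ 2

theorem uv_surj (u v : ι → ℂ) : ∃ p : ι × Bool → ℂ, uu p = u ∧ vv p = v := by
  have hs : ∀ z : ℂ, ∃ w : ℂ, w ^ 2 = z := fun z =>
    ⟨z ^ ((1:ℂ) / 2), by rw [← Complex.cpow_nat_mul]; norm_num⟩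
  choose s hs' using hs
  refine ⟨fun q => if q.2 then (s (u q.1) - s (v q.1)) / (2 * Complex.I) else (s (u q.1) + s (v q.1)) / 2, ?_, ?_⟩
  · funext i
    simp only [uu, if_true]
    have : ((s (u i) + s (v i)) / 2 + Complex.I * ((s (u i) - s (v i)) / (2 * Complex.I))) = s (u i) := by
      field_simp; ring
    simp only [Bool.false_eq_true, if_false]
    rw [this, hs']
  · funext i
    simp only [vv, if_true]
    have : ((s (u i) + s (v i)) / 2 - Complex.I * ((s (u i) - s (v i)) / (2 * Complex.I))) = s (v i) := by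
      field_simp; ring
    simp only [Bool.false_eq_true, if_false]
    rw [this, hs']

theorem isPoly_uu (i : ι) : IsPoly (fun p : ι × Bool → ℂ => uu p i) := by
  unfold uu
  exact ((IsPoly.coord _).add ((IsPoly.const _).mul (IsPoly.coord _))).pow 2

theorem isPoly_vv (i : ι) : IsPoly (fun p : ι × Bool → ℂ => vv p i) := by
  unfold vv
  exact ((IsPoly.coord _).sub ((IsPoly.const _).mul (IsPoly.coord _))).pow 2

theorem isPoly_lin_uu (D : ι → ℂ) : IsPoly (fun p : ι × Bool → ℂ => lin D (uu p)) := by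
  unfold lin
  exact IsPoly.sum _ (fun i _ => (IsPoly.const _).mul (isPoly_uu i))

theorem isPoly_lin_vv (D : ι → ℂ) : IsPoly (fun p : ι × Bool → ℂ => lin D (vv p)) := by
  unfold lin
  exact IsPoly.sum _ (fun i _ => (IsPoly.const _).mul (isPoly_vv i))

/-- vector killed by P but not by R, from a nonzero minor -/
theorem exists_kill {P R : ι → ℂ} {i j : ι} (h : P i * R j - P j * R i ≠ 0) :
    ∃ u : ι → ℂ, lin P u = 0 ∧ lin R u ≠ 0 := by
  refine ⟨P j • Pi.single i 1 + (-(P i)) • Pi.single j 1, ?_, ?_⟩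
  · rw [lin_add, lin_smul, lin_smul, lin_single, lin_single]; ring
  · rw [lin_add, lin_smul, lin_smul, lin_single, lin_single]
    intro h0
    apply h
    linear_combination -h0

/-- independence of two integer vectors via minors -/
def Ind (P R : ι → ℂ) : Prop := ∃ i j, P i * R j - P j * R i ≠ 0

theorem exists_u {P R R' : ι → ℂ} (h : Ind P R) (h' : Ind P R') : ∃ u, lin P u = 0 ∧ lin R u ≠ 0 ∧ lin R' u ≠ 0 := by
  obtain ⟨i, j, hij⟩ := h
  obtain ⟨k, l, hkl⟩ := h'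
  obtain ⟨u1, h1, h2⟩ := exists_kill hij
  obtain ⟨u2, h3, h4⟩ := exists_kill hkl
  obtain ⟨c, hc1, hc2⟩ := exists_avoid_two (B := lin R u2) (A' := lin R' u1) h2 h4
  refine ⟨u1 + c • u2, ?_, ?_, ?_⟩
  · rw [lin_add, lin_smul, h1, h3]; simp
  · rw [lin_add, lin_smul]; exact hc1
  · rw [lin_add, lin_smul]; exact hc2

theorem exists_v {R R' : ι → ℂ} (h : ∃ i, R i ≠ 0) (h' : ∃ i, R' i ≠ 0) : ∃ u, lin R u ≠ 0 ∧ lin R' u ≠ 0 := by
  obtain ⟨i, hi⟩ := h
  obtain ⟨j, hj⟩ := h'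
  obtain ⟨c, hc1, hc2⟩ := exists_avoid_two (B := lin R (Pi.single j 1)) (A' := lin R' (Pi.single i 1)) (A := lin R (Pi.single i 1)) (B' := lin R' (Pi.single j 1))
    (by rw [lin_single]; exact hi) (by rw [lin_single]; exact hj)
  refine ⟨Pi.single i 1 + c • Pi.single j 1, ?_, ?_⟩
  · rw [lin_add, lin_smul]; exact hc1
  · rw [lin_add, lin_smul]; exact hc2

theorem isPoly_col (X Y Z : ι → ℂ) : IsPoly (fun p : ι × Bool → ℂ =>
    col (lin X (uu p)) (lin X (vv p)) (lin Y (uu p)) (lin Y (vv p)) (lin Z (uu p)) (lin Z (vv p))) := by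
  unfold col
  exact (((isPoly_lin_uu _).sub (isPoly_lin_uu _)).mul ((isPoly_lin_vv _).sub (isPoly_lin_vv _))).sub
    (((isPoly_lin_vv _).sub (isPoly_lin_vv _)).mul ((isPoly_lin_uu _).sub (isPoly_lin_uu _)))

theorem isPoly_conc (X Y Z T : ι → ℂ) : IsPoly (fun p : ι × Bool → ℂ =>
    conc (lin X (uu p)) (lin X (vv p)) (lin Y (uu p)) (lin Y (vv p)) (lin Z (uu p)) (lin Z (vv p)) (lin T (uu p)) (lin T (vv p))) := by
  unfold conc
  exact ((((isPoly_lin_uu _).sub (isPoly_lin_uu _)).mul ((isPoly_lin_uu _).sub (isPoly_lin_uu _))).mul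
    (((isPoly_lin_vv _).sub (isPoly_lin_vv _)).mul ((isPoly_lin_vv _).sub (isPoly_lin_vv _)))).sub
    ((((isPoly_lin_vv _).sub (isPoly_lin_vv _)).mul ((isPoly_lin_vv _).sub (isPoly_lin_vv _))).mul
    (((isPoly_lin_uu _).sub (isPoly_lin_uu _)).mul ((isPoly_lin_uu _).sub (isPoly_lin_uu _))))

theorem col_ne (X Y Z : ι → ℂ) (h : Ind (Y - X) (Z - X)) : ∃ p : ι × Bool → ℂ,
    col (lin X (uu p)) (lin X (vv p)) (lin Y (uu p)) (lin Y (vv p)) (lin Z (uu p)) (lin Z (vv p)) ≠ 0 := by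
  obtain ⟨i, j, hij⟩ := h
  obtain ⟨p, hp1, hp2⟩ := uv_surj (Pi.single i 1 : ι → ℂ) (Pi.single j 1)
  refine ⟨p, ?_⟩
  unfold col
  rw [hp1, hp2, lin_sub, lin_sub, lin_sub, lin_sub, lin_single, lin_single, lin_single, lin_single]
  exact hij

theorem conc_ne (X Y Z T : ι → ℂ) (h : Ind (X - Z) (Y - Z)) (h' : Ind (X - Z) (X - T))
    (h1 : ∃ i, (X - Z) i ≠ 0) (h2 : ∃ i, (Y - T) i ≠ 0) : ∃ p : ι × Bool → ℂ,
    conc (lin X (uu p)) (lin X (vv p)) (lin Y (uu p)) (lin Y (vv p)) (lin Z (uu p)) (lin Z (vv p)) (lin T (uu p)) (lin T (vv p)) ≠ 0 := by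
  obtain ⟨u, hu1, hu2, hu3⟩ := exists_u h h'
  obtain ⟨v, hv1, hv2⟩ := exists_v h1 h2
  obtain ⟨p, hp1, hp2⟩ := uv_surj u v
  refine ⟨p, ?_⟩
  unfold conc
  rw [hp1, hp2]
  simp only [lin_sub]
  rw [hu1, zero_mul, zero_mul, zero_sub, neg_ne_zero]
  exact mul_ne_zero (mul_ne_zero hv1 hv2) (mul_ne_zero hu2 hu3)

end

end Pool.Agent.Lib.Helper12.IntDist.Geo
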