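import Mathlib
import Pool.Agent.Lib.Helper12.IntDist.Geo3
open Finset

namespace Pool.Agent.Lib.Helper12.IntDist.Geo
open Pool.Agent.Lib.Helper12.IntDist.Core
open ComplexConjugate

set_option linter.unusedSectionVars false

section
variable {ι α : Type} [Fintype ι] [DecidableEq ι] [Fintype α] [DecidableEq α]

theorem conj_lin (D : ι → ℤ) (n : ι × Bool → ℤ) :
    conj (lin (fun i => (D i : ℂ)) (uu (fun q => (n q : ℂ)))) = lin (fun i => (D i : ℂ)) (vv (fun q => (n q : ℂ))) := by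
  unfold lin uu vv
  rw [map_sum]
  apply Finset.sum_congr rfl
  intro i _
  simp only [map_mul, map_pow, map_add, Complex.conj_I, map_intCast]
  ring

/-- the integer vector of a word -/
def vec (τ : ι × α → ℤ) (x : ι → α) : ι → ℂ := fun i => ((τ (i, x i) : ℤ) : ℂ)

theorem ind_of_minor {τ : ι × α → ℤ} {x y w : ι → α} (h : ∃ i j, minor τ x y w i j ≠ 0) :
    Ind (vec τ y - vec τ x) (vec τ w - vec τ x) := by
  obtain ⟨i, j, hij⟩ := h
  refine ⟨i, j, ?_⟩
  simp only [vec, Pi.sub_apply]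
  have : (((minor τ x y w i j : ℤ)) : ℂ) ≠ 0 := by exact_mod_cast hij
  unfold minor at this
  push_cast at this
  exact this

theorem Ind.neg_left {P R : ι → ℂ} (h : Ind P R) : Ind (-P) R := by
  obtain ⟨i, j, hij⟩ := h
  refine ⟨i, j, fun h0 => hij ?_⟩
  simp only [Pi.neg_apply] at h0
  linear_combination -h0

theorem Ind.neg_right {P R : ι → ℂ} (h : Ind P R) : Ind P (-R) := by
  obtain ⟨i, j, hij⟩ := h
  refine ⟨i, j, fun h0 => hij ?_⟩
  simp only [Pi.neg_apply] at h0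
  linear_combination -h0

/-- **Realization.** -/
theorem realize (W : Finset (ι → α)) (hne : Nonempty ι)
    (hW : ∀ x ∈ W, ∀ z ∈ W, ∀ w ∈ W, x ≠ z → x ≠ w → z ≠ w → ¬ OnLine x z w) :
    ∃ Φ : (ι → α) → ℂ, (∀ x ∈ W, ∀ y ∈ W, x ≠ y → Φ x ≠ Φ y) ∧ GP (Φ '' (W : Set (ι → α))) ∧
      ∀ x y, HAdj x y → ∃ m : ℤ, dist (Φ x) (Φ y) = m := by
  classical
  obtain ⟨τ, hτ1, hτ2⟩ := stage1 W hW
  let J : Type := ((ι → α) × (ι → α)) ⊕ (((ι → α) × (ι → α) × (ι → α)) ⊕ ((ι → α) × (ι → α) × (ι → α) × (ι → α)))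
  let f : J → ((ι × Bool → ℂ) → ℂ) := fun j => match j with
    | Sum.inl (x, y) => fun p => lin (vec τ x) (uu p) - lin (vec τ y) (uu p)
    | Sum.inr (Sum.inl (x, y, z)) => fun p =>
        col (lin (vec τ x) (uu p)) (lin (vec τ x) (vv p)) (lin (vec τ y) (uu p)) (lin (vec τ y) (vv p))
          (lin (vec τ z) (uu p)) (lin (vec τ z) (vv p))
    | Sum.inr (Sum.inr (x, y, z, w)) => fun p =>
        conc (lin (vec τ x) (uu p)) (lin (vec τ x) (vv p)) (lin (vec τ y) (uu p)) (lin (vec τ y) (vv p))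
          (lin (vec τ z) (uu p)) (lin (vec τ z) (vv p)) (lin (vec τ w) (uu p)) (lin (vec τ w) (vv p))
  let s : Finset J := univ.filter (fun j => match j with
    | Sum.inl (x, y) => x ≠ y
    | Sum.inr (Sum.inl (x, y, z)) => x ∈ W ∧ y ∈ W ∧ z ∈ W ∧ x ≠ y ∧ x ≠ z ∧ y ≠ z
    | Sum.inr (Sum.inr (x, y, z, w)) => x ∈ W ∧ y ∈ W ∧ z ∈ W ∧ w ∈ W ∧ x ≠ y ∧ x ≠ z ∧ x ≠ w ∧ y ≠ z ∧ y ≠ w ∧ z ≠ w)
  have hpoly : ∀ j ∈ s, IsPoly (f j) := by
    rintro (⟨x, y⟩ | ⟨x, y, z⟩ | ⟨x, y, z, w⟩) _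
    · exact (isPoly_lin_uu _).sub (isPoly_lin_uu _)
    · exact isPoly_col _ _ _
    · exact isPoly_conc _ _ _ _
  have hvecne : ∀ x y : ι → α, x ≠ y → ∃ i, (vec τ x - vec τ y) i ≠ 0 := by
    intro x y hxy
    obtain ⟨i, hi⟩ : ∃ i, x i ≠ y i := by
      by_contra hcon; push Not at hcon; exact hxy (funext hcon)
    refine ⟨i, ?_⟩
    simp only [vec, Pi.sub_apply]
    rw [sub_ne_zero]
    exact_mod_cast hτ1 i _ _ hi
  have hnz : ∀ j ∈ s, ∃ x, f j x ≠ 0 := by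
    rintro (⟨x, y⟩ | ⟨x, y, z⟩ | ⟨x, y, z, w⟩) hj
    · simp only [s, Finset.mem_filter, Finset.mem_univ, true_and] at hj
      obtain ⟨i, hi⟩ := hvecne x y hj
      obtain ⟨p, hp1, _⟩ := uv_surj (Pi.single i 1 : ι → ℂ) (Pi.single i 1)
      refine ⟨p, ?_⟩
      simp only [f]
      rw [hp1, lin_sub, lin_single]
      exact hi
    · simp only [s, Finset.mem_filter, Finset.mem_univ, true_and] at hj
      obtain ⟨h1, h2, h3, h4, h5, h6⟩ := hj
      exact col_ne _ _ _ (ind_of_minor (hτ2 x h1 y h2 z h3 h4 h5 h6))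
    · simp only [s, Finset.mem_filter, Finset.mem_univ, true_and] at hj
      obtain ⟨h1, h2, h3, h4, hxy, hxz, hxw, hyz, hyw, hzw⟩ := hj
      apply conc_ne
      · exact ind_of_minor (hτ2 z h3 x h1 y h2 hxz.symm hyz.symm hxy)
      · have := (ind_of_minor (hτ2 x h1 z h3 w h4 hxz hxw hzw)).neg_left.neg_right
        rwa [neg_sub, neg_sub] at this
      · exact hvecne x z hxz
      · exact hvecne y w hyw
  obtain ⟨n, hn⟩ := avoid s f hpoly hnz
  set P : ι × Bool → ℂ := fun q => (n q : ℂ) with hP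
  let Φ : (ι → α) → ℂ := fun x => lin (vec τ x) (uu P)
  have hconj : ∀ x, conj (Φ x) = lin (vec τ x) (vv P) := fun x => conj_lin (fun i => τ (i, x i)) n
  refine ⟨Φ, ?_, ⟨?_, ?_⟩, ?_⟩
  · intro x _ y _ hxy h
    have := hn (Sum.inl (x, y)) (by simp [s, hxy])
    apply this
    simp only [f]
    exact sub_eq_zero.2 h
  · rintro _ ⟨x, hx, rfl⟩ _ ⟨y, hy, rfl⟩ _ ⟨z, hz, rfl⟩ hxy hxz hyz
    have hxy' : x ≠ y := fun h => hxy (by rw [h])
    have hxz' : x ≠ z := fun h => hxz (by rw [h])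
    have hyz' : y ≠ z := fun h => hyz (by rw [h])
    have := hn (Sum.inr (Sum.inl (x, y, z))) (by
      simp only [s, Finset.mem_filter, Finset.mem_univ, true_and]
      exact ⟨hx, hy, hz, hxy', hxz', hyz'⟩)
    rw [hconj, hconj, hconj]
    exact this
  · rintro _ ⟨x, hx, rfl⟩ _ ⟨y, hy, rfl⟩ _ ⟨z, hz, rfl⟩ _ ⟨w, hw, rfl⟩ hxy hxz hxw hyz hyw hzw
    have hxy' : x ≠ y := fun h => hxy (by rw [h])
    have hxz' : x ≠ z := fun h => hxz (by rw [h])
    have hyz' : y ≠ z := fun h => hyz (by rw [h])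
    have hxw' : x ≠ w := fun h => hxw (by rw [h])
    have hyw' : y ≠ w := fun h => hyw (by rw [h])
    have hzw' : z ≠ w := fun h => hzw (by rw [h])
    have := hn (Sum.inr (Sum.inr (x, y, z, w))) (by
      simp only [s, Finset.mem_filter, Finset.mem_univ, true_and]
      exact ⟨hx, hy, hz, hw, hxy', hxz', hxw', hyz', hyw', hzw'⟩)
    rw [hconj, hconj, hconj, hconj]
    exact this
  · rintro x y ⟨i, hi, hj⟩
    refine ⟨|τ (i, x i) - τ (i, y i)| * ((n (i, false)) ^ 2 + (n (i, true)) ^ 2), ?_⟩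
    have h1 : Φ x - Φ y = ((τ (i, x i) - τ (i, y i) : ℤ) : ℂ) * ((n (i, false) : ℂ) + Complex.I * (n (i, true) : ℂ)) ^ 2 := by
      change lin (vec τ x) (uu P) - lin (vec τ y) (uu P) = _
      rw [lin_sub]
      unfold lin
      rw [Finset.sum_eq_single i]
      · simp only [vec, Pi.sub_apply, uu, hP]
        push_cast; ring
      · intro j _ hji
        simp only [vec, Pi.sub_apply]
        rw [hj j hji, sub_self, zero_mul]
      · intro h; exact absurd (Finset.mem_univ _) h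
    rw [Complex.dist_eq, h1, norm_mul, norm_pow]
    have h2 : ‖(n (i, false) : ℂ) + Complex.I * (n (i, true) : ℂ)‖ ^ 2 = ((n (i, false) : ℝ)) ^ 2 + ((n (i, true)) : ℝ) ^ 2 := by
      rw [Complex.sq_norm, Complex.normSq_apply]
      simp; ring
    rw [h2, Complex.norm_intCast]
    push_cast
    ring

end

end Pool.Agent.Lib.Helper12.IntDist.Geo
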