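import Mathlib
import Pool.Agent.Lib.Helper12.IntDist.Geo4
open Finset

namespace Pool.Agent.Lib.Helper12.IntDist.Geo
open Pool.Agent.Lib.Helper12.IntDist.Core
open ComplexConjugate

set_option linter.unusedSectionVars false

/-- a moving point `κ + ε s` -/
structure MP where
  κ : ℂ
  ε : Bool

def MP.eval (m : MP) (s : ℂ) : ℂ := m.κ + if m.ε then s else 0
/-- conjugate point -/
noncomputable def MP.cj (m : MP) : MP := ⟨conj m.κ, m.ε⟩

/-- distinct as moving points within the same class -/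
def MP.Sep (a b : MP) : Prop := a.ε = b.ε → a.κ ≠ b.κ

theorem MP.Sep.symm {a b : MP} (h : a.Sep b) : b.Sep a := fun h1 => (h h1.symm).symm

theorem MP.Sep.cj {a b : MP} (h : a.Sep b) : a.cj.Sep b.cj := by
  intro h1 h2
  apply h h1
  have := congrArg conj h2
  simpa [MP.cj] using this

theorem MP.eval_ne_same {a b : MP} (h : a.Sep b) (h1 : a.ε = b.ε) (s : ℂ) : a.eval s ≠ b.eval s := by
  unfold MP.eval
  rw [h1]
  intro h2
  exact h h1 (add_right_cancel h2)

theorem MP.merge {a b : MP} (h : a.ε ≠ b.ε) : ∃ s, a.eval s = b.eval s := by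
  unfold MP.eval
  cases ha : a.ε <;> cases hb : b.ε
  · exact absurd (ha.trans hb.symm) h
  · exact ⟨a.κ - b.κ, by simp⟩
  · exact ⟨b.κ - a.κ, by simp⟩
  · exact absurd (ha.trans hb.symm) h

/-- if `a,b` merge at `s` and are of different classes, a third one is different from them. -/
theorem MP.third {a b c : MP} {s : ℂ} (hab : a.ε ≠ b.ε) (hs : a.eval s = b.eval s) (hac : a.Sep c) (hbc : b.Sep c) :
    a.eval s ≠ c.eval s := by
  by_cases h : a.ε = c.ε
  · exact MP.eval_ne_same hac h s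
  · have h2 : b.ε = c.ε := by
      revert h hab
      cases a.ε <;> cases b.ε <;> cases c.ε <;> simp
    rw [hs]
    exact MP.eval_ne_same hbc h2 s

theorem MP.finite_eq {a b : MP} (h : a.Sep b) : {s : ℂ | a.eval s = b.eval s}.Finite := by
  by_cases h1 : a.ε = b.ε
  · have : {s : ℂ | a.eval s = b.eval s} = ∅ := by
      ext s; simp [MP.eval_ne_same h h1 s]
    rw [this]; exact Set.finite_empty
  · apply Set.Subsingleton.finite
    intro s hs t ht
    simp only [Set.mem_ofPred_eq, MP.eval] at hs ht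
    cases ha : a.ε <;> cases hb : b.ε
    · exact absurd (ha.trans hb.symm) h1
    · simp only [ha, hb] at hs ht
      simp at hs ht
      linear_combination ht - hs
    · simp only [ha, hb] at hs ht
      simp at hs ht
      linear_combination hs - ht
    · exact absurd (ha.trans hb.symm) h1

theorem MP.exists_two {a b c d : MP} (h : a.Sep b) (h' : c.Sep d) : ∃ s, a.eval s ≠ b.eval s ∧ c.eval s ≠ d.eval s := by
  obtain ⟨s, hs⟩ := ((MP.finite_eq h).union (MP.finite_eq h')).infinite_compl.nonempty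
  simp only [Set.mem_compl_iff, Set.mem_union, Set.mem_ofPred_eq, not_or] at hs
  exact ⟨s, hs.1, hs.2⟩

theorem MP.exists_one {a b : MP} (h : a.Sep b) : ∃ s, a.eval s ≠ b.eval s := by
  obtain ⟨s, hs, _⟩ := MP.exists_two h h
  exact ⟨s, hs⟩

/-- col for moving points -/
noncomputable def mcol (a b c : MP) (s t : ℂ) : ℂ :=
  col (a.eval s) (a.cj.eval t) (b.eval s) (b.cj.eval t) (c.eval s) (c.cj.eval t)

noncomputable def mconc (a b c d : MP) (s t : ℂ) : ℂ :=
  conc (a.eval s) (a.cj.eval t) (b.eval s) (b.cj.eval t) (c.eval s) (c.cj.eval t) (d.eval s) (d.cj.eval t)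

theorem eval_sub_same {a b : MP} (h : a.ε = b.ε) (s : ℂ) : a.eval s - b.eval s = a.κ - b.κ := by
  unfold MP.eval; rw [h]; ring

theorem mcol_ne {a b c : MP} (hab : a.Sep b) (hac : a.Sep c) (hbc : b.Sep c)
    (h0 : a.ε = b.ε → a.ε = c.ε → col a.κ (conj a.κ) b.κ (conj b.κ) c.κ (conj c.κ) ≠ 0) :
    ∃ s t, mcol a b c s t ≠ 0 := by
  by_cases h1 : a.ε = b.ε
  · by_cases h2 : a.ε = c.ε
    · refine ⟨0, 0, ?_⟩
      have := h0 h1 h2
      unfold mcol col
      unfold col at this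
      rw [eval_sub_same h1.symm, eval_sub_same h2.symm, eval_sub_same (a := c.cj) (b := a.cj) h2.symm,
        eval_sub_same (a := b.cj) (b := a.cj) h1.symm]
      exact this
    · obtain ⟨s, hs⟩ := MP.merge (a := c) (b := a) (Ne.symm h2)
      have h3 := MP.third (Ne.symm h2) hs hbc.symm hab
      obtain ⟨t, ht⟩ := MP.exists_one hac.cj
      refine ⟨s, t, ?_⟩
      unfold mcol col
      rw [hs, sub_self, mul_zero, sub_zero]
      refine mul_ne_zero (sub_ne_zero.2 ?_) (sub_ne_zero.2 ht.symm)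
      rw [← hs]; exact h3.symm
  · obtain ⟨s, hs⟩ := MP.merge (a := b) (b := a) (Ne.symm h1)
    have h3 := MP.third (Ne.symm h1) hs hbc hac
    obtain ⟨t, ht⟩ := MP.exists_one hab.cj
    refine ⟨s, t, ?_⟩
    unfold mcol col
    rw [hs, sub_self, zero_mul, zero_sub, neg_ne_zero]
    refine mul_ne_zero (sub_ne_zero.2 ht.symm) (sub_ne_zero.2 ?_)
    rw [← hs]; exact h3.symm

theorem mconc_ne {a b c d : MP} (hab : a.Sep b) (hac : a.Sep c) (had : a.Sep d) (hbc : b.Sep c) (hbd : b.Sep d)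
    (hcd : c.Sep d)
    (h0 : a.ε = b.ε → a.ε = c.ε → a.ε = d.ε → conc a.κ (conj a.κ) b.κ (conj b.κ) c.κ (conj c.κ) d.κ (conj d.κ) ≠ 0) :
    ∃ s t, mconc a b c d s t ≠ 0 := by
  by_cases h1 : a.ε = c.ε
  · by_cases h2 : b.ε = d.ε
    · by_cases h3 : a.ε = b.ε
      · refine ⟨0, 0, ?_⟩
        have h4 := h0 h3 h1 (h3.trans h2)
        unfold mconc conc
        unfold conc at h4
        have h5 : b.ε = c.ε := h3.symm.trans h1
        have h6 : a.ε = d.ε := h3.trans h2
        rw [eval_sub_same h1, eval_sub_same h2, eval_sub_same h5, eval_sub_same h6,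
          eval_sub_same (a := a.cj) (b := c.cj) h1, eval_sub_same (a := b.cj) (b := d.cj) h2,
          eval_sub_same (a := b.cj) (b := c.cj) h5, eval_sub_same (a := a.cj) (b := d.cj) h6]
        exact h4
      · have h5 : b.ε ≠ c.ε := fun h => h3 (h1.trans h.symm)
        obtain ⟨s, hs⟩ := MP.merge h5
        obtain ⟨t, ht1, ht2⟩ := MP.exists_two hbc.cj had.cj
        refine ⟨s, t, ?_⟩
        unfold mconc conc
        rw [hs, sub_self, zero_mul, mul_zero, sub_zero]
        refine mul_ne_zero (mul_ne_zero (sub_ne_zero.2 ?_) (sub_ne_zero.2 ?_)) (mul_ne_zero (sub_ne_zero.2 ht1) (sub_ne_zero.2 ht2))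
        · exact MP.eval_ne_same hac h1 s
        · rw [← hs]; exact MP.eval_ne_same hbd h2 s
    · obtain ⟨s, hs⟩ := MP.merge h2
      obtain ⟨t, ht1, ht2⟩ := MP.exists_two hac.cj hbd.cj
      refine ⟨s, t, ?_⟩
      unfold mconc conc
      rw [hs, sub_self, mul_zero, zero_mul, zero_sub, neg_ne_zero]
      refine mul_ne_zero (mul_ne_zero (sub_ne_zero.2 ht1) (sub_ne_zero.2 ht2)) (mul_ne_zero (sub_ne_zero.2 ?_) (sub_ne_zero.2 ?_))
      · rw [← hs]; exact MP.third h2 hs hbc hcd.symm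
      · exact (MP.third (Ne.symm h2) hs.symm had.symm hab.symm).symm
  · obtain ⟨s, hs⟩ := MP.merge h1
    obtain ⟨t, ht1, ht2⟩ := MP.exists_two hac.cj hbd.cj
    refine ⟨s, t, ?_⟩
    unfold mconc conc
    rw [hs, sub_self, zero_mul, zero_mul, zero_sub, neg_ne_zero]
    refine mul_ne_zero (mul_ne_zero (sub_ne_zero.2 ht1) (sub_ne_zero.2 ht2)) (mul_ne_zero (sub_ne_zero.2 ?_) (sub_ne_zero.2 ?_))
    · exact (MP.third (Ne.symm h1) hs.symm hbc.symm hab).symm
    · rw [← hs]; exact MP.third h1 hs had hcd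

theorem isPoly_eval (m : MP) {f : (Bool → ℂ) → ℂ} (hf : IsPoly f) : IsPoly (fun p : Bool → ℂ => m.eval (f p)) := by
  unfold MP.eval
  cases m.ε
  · simpa using (IsPoly.const (σ := Bool) m.κ)
  · simpa using (IsPoly.const (σ := Bool) m.κ).add hf

/-- position parameter and its conjugate -/
noncomputable def sp (p : Bool → ℂ) : ℂ := p false + Complex.I * p true
noncomputable def tp (p : Bool → ℂ) : ℂ := p false - Complex.I * p true

theorem isPoly_sp : IsPoly sp := (IsPoly.coord _).add ((IsPoly.const _).mul (IsPoly.coord _))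
theorem isPoly_tp : IsPoly tp := (IsPoly.coord _).sub ((IsPoly.const _).mul (IsPoly.coord _))

theorem st_surj (s t : ℂ) : ∃ p, sp p = s ∧ tp p = t := by
  refine ⟨fun b => if b then (s - t) / (2 * Complex.I) else (s + t) / 2, ?_, ?_⟩
  · simp only [sp, if_true, Bool.false_eq_true, if_false]; field_simp; ring
  · simp only [tp, if_true, Bool.false_eq_true, if_false]; field_simp; ring

theorem isPoly_mcol (a b c : MP) : IsPoly (fun p => mcol a b c (sp p) (tp p)) := by
  unfold mcol col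
  exact (((isPoly_eval _ isPoly_sp).sub (isPoly_eval _ isPoly_sp)).mul ((isPoly_eval _ isPoly_tp).sub (isPoly_eval _ isPoly_tp))).sub
    (((isPoly_eval _ isPoly_tp).sub (isPoly_eval _ isPoly_tp)).mul ((isPoly_eval _ isPoly_sp).sub (isPoly_eval _ isPoly_sp)))

theorem isPoly_mconc (a b c d : MP) : IsPoly (fun p => mconc a b c d (sp p) (tp p)) := by
  unfold mconc conc
  exact ((((isPoly_eval _ isPoly_sp).sub (isPoly_eval _ isPoly_sp)).mul ((isPoly_eval _ isPoly_sp).sub (isPoly_eval _ isPoly_sp))).mul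
    (((isPoly_eval _ isPoly_tp).sub (isPoly_eval _ isPoly_tp)).mul ((isPoly_eval _ isPoly_tp).sub (isPoly_eval _ isPoly_tp)))).sub
    ((((isPoly_eval _ isPoly_tp).sub (isPoly_eval _ isPoly_tp)).mul ((isPoly_eval _ isPoly_tp).sub (isPoly_eval _ isPoly_tp))).mul
    (((isPoly_eval _ isPoly_sp).sub (isPoly_eval _ isPoly_sp)).mul ((isPoly_eval _ isPoly_sp).sub (isPoly_eval _ isPoly_sp))))

/-- The union of two finite sets in general position, the second one suitably translated, is in general position. -/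
theorem union_step (A B : Set ℂ) (hA : A.Finite) (hB : B.Finite) (hGA : GP A) (hGB : GP B) :
    ∃ g : ℂ, GP (A ∪ (fun b => b + g) '' B) := by
  classical
  -- moving points
  let M : Type := ↥hA.toFinset ⊕ ↥hB.toFinset
  let mp : M → MP := fun m => match m with
    | Sum.inl a => ⟨a.1, false⟩
    | Sum.inr b => ⟨b.1, true⟩
  have hsep : ∀ m m' : M, m ≠ m' → (mp m).Sep (mp m') := by
    rintro (a | b) (a' | b') hne
    · intro _ h; apply hne; congr 1; exact Subtype.ext h
    · intro h; simp [mp] at h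
    · intro h; simp [mp] at h
    · intro _ h; apply hne; congr 1; exact Subtype.ext h
  let J : Type := (M × M × M) ⊕ (M × M × M × M)
  let f : J → ((Bool → ℂ) → ℂ) := fun j => match j with
    | Sum.inl (x, y, z) => fun p => mcol (mp x) (mp y) (mp z) (sp p) (tp p)
    | Sum.inr (x, y, z, w) => fun p => mconc (mp x) (mp y) (mp z) (mp w) (sp p) (tp p)
  let s : Finset J := univ.filter (fun j => match j with
    | Sum.inl (x, y, z) => x ≠ y ∧ x ≠ z ∧ y ≠ z
    | Sum.inr (x, y, z, w) => x ≠ y ∧ x ≠ z ∧ x ≠ w ∧ y ≠ z ∧ y ≠ w ∧ z ≠ w)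
  have hpoly : ∀ j ∈ s, IsPoly (f j) := by
    rintro (⟨x, y, z⟩ | ⟨x, y, z, w⟩) _
    · exact isPoly_mcol _ _ _
    · exact isPoly_mconc _ _ _ _
  have hmem : ∀ m : M, (mp m).ε = false → (mp m).κ ∈ A := by
    rintro (a | b) h
    · exact hA.mem_toFinset.1 a.2
    · simp [mp] at h
  have hmem' : ∀ m : M, (mp m).ε = true → (mp m).κ ∈ B := by
    rintro (a | b) h
    · simp [mp] at h
    · exact hB.mem_toFinset.1 b.2
  have hnz : ∀ j ∈ s, ∃ x, f j x ≠ 0 := by
    rintro (⟨x, y, z⟩ | ⟨x, y, z, w⟩) hj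
    · simp only [s, Finset.mem_filter, Finset.mem_univ, true_and] at hj
      obtain ⟨hxy, hxz, hyz⟩ := hj
      obtain ⟨s, t, hst⟩ := mcol_ne (hsep _ _ hxy) (hsep _ _ hxz) (hsep _ _ hyz) (by
        intro h1 h2
        cases hx : (mp x).ε
        · exact hGA.1 _ (hmem x hx) _ (hmem y (by rw [← h1, hx])) _ (hmem z (by rw [← h2, hx]))
            (hsep _ _ hxy h1) (hsep _ _ hxz h2) (hsep _ _ hyz (h1.symm.trans h2))
        · exact hGB.1 _ (hmem' x hx) _ (hmem' y (by rw [← h1, hx])) _ (hmem' z (by rw [← h2, hx]))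
            (hsep _ _ hxy h1) (hsep _ _ hxz h2) (hsep _ _ hyz (h1.symm.trans h2)))
      obtain ⟨p, hp1, hp2⟩ := st_surj s t
      refine ⟨p, ?_⟩
      simp only [f]
      rw [hp1, hp2]; exact hst
    · simp only [s, Finset.mem_filter, Finset.mem_univ, true_and] at hj
      obtain ⟨hxy, hxz, hxw, hyz, hyw, hzw⟩ := hj
      obtain ⟨s, t, hst⟩ := mconc_ne (hsep _ _ hxy) (hsep _ _ hxz) (hsep _ _ hxw) (hsep _ _ hyz) (hsep _ _ hyw) (hsep _ _ hzw) (by
        intro h1 h2 h3
        cases hx : (mp x).ε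
        · exact hGA.2 _ (hmem x hx) _ (hmem y (by rw [← h1, hx])) _ (hmem z (by rw [← h2, hx])) _ (hmem w (by rw [← h3, hx]))
            (hsep _ _ hxy h1) (hsep _ _ hxz h2) (hsep _ _ hxw h3) (hsep _ _ hyz (h1.symm.trans h2)) (hsep _ _ hyw (h1.symm.trans h3)) (hsep _ _ hzw (h2.symm.trans h3))
        · exact hGB.2 _ (hmem' x hx) _ (hmem' y (by rw [← h1, hx])) _ (hmem' z (by rw [← h2, hx])) _ (hmem' w (by rw [← h3, hx]))
            (hsep _ _ hxy h1) (hsep _ _ hxz h2) (hsep _ _ hxw h3) (hsep _ _ hyz (h1.symm.trans h2)) (hsep _ _ hyw (h1.symm.trans h3)) (hsep _ _ hzw (h2.symm.trans h3)))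
      obtain ⟨p, hp1, hp2⟩ := st_surj s t
      refine ⟨p, ?_⟩
      simp only [f]
      rw [hp1, hp2]; exact hst
  obtain ⟨n, hn⟩ := avoid s f hpoly hnz
  set P : Bool → ℂ := fun q => (n q : ℂ) with hP
  set g : ℂ := sp P with hg
  have hgc : conj g = tp P := by
    simp only [hg, sp, tp, hP, map_add, map_mul, Complex.conj_I, map_intCast]
    ring
  have hpt : ∀ m : M, conj ((mp m).eval g) = (mp m).cj.eval (tp P) := by
    intro m
    rw [← hgc]
    unfold MP.eval MP.cj
    cases (mp m).ε <;> simp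
  have hrep : ∀ x ∈ A ∪ (fun b => b + g) '' B, ∃ m : M, (mp m).eval g = x := by
    rintro x (hx | ⟨b, hb, rfl⟩)
    · exact ⟨Sum.inl ⟨x, hA.mem_toFinset.2 hx⟩, by simp [mp, MP.eval]⟩
    · exact ⟨Sum.inr ⟨b, hB.mem_toFinset.2 hb⟩, by simp [mp, MP.eval]⟩
  refine ⟨g, ?_, ?_⟩
  · intro x hx y hy z hz hxy hxz hyz
    obtain ⟨mx, rfl⟩ := hrep x hx
    obtain ⟨my, rfl⟩ := hrep y hy
    obtain ⟨mz, rfl⟩ := hrep z hz
    have hxy' : mx ≠ my := fun h => hxy (by rw [h])
    have hxz' : mx ≠ mz := fun h => hxz (by rw [h])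
    have hyz' : my ≠ mz := fun h => hyz (by rw [h])
    have := hn (Sum.inl (mx, my, mz)) (by
      simp only [s, Finset.mem_filter, Finset.mem_univ, true_and]
      exact ⟨hxy', hxz', hyz'⟩)
    rw [hpt, hpt, hpt]
    exact this
  · intro x hx y hy z hz w hw hxy hxz hxw hyz hyw hzw
    obtain ⟨mx, rfl⟩ := hrep x hx
    obtain ⟨my, rfl⟩ := hrep y hy
    obtain ⟨mz, rfl⟩ := hrep z hz
    obtain ⟨mw, rfl⟩ := hrep w hw
    have hxy' : mx ≠ my := fun h => hxy (by rw [h])
    have hxz' : mx ≠ mz := fun h => hxz (by rw [h])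
    have hyz' : my ≠ mz := fun h => hyz (by rw [h])
    have hxw' : mx ≠ mw := fun h => hxw (by rw [h])
    have hyw' : my ≠ mw := fun h => hyw (by rw [h])
    have hzw' : mz ≠ mw := fun h => hzw (by rw [h])
    have := hn (Sum.inr (mx, my, mz, mw)) (by
      simp only [s, Finset.mem_filter, Finset.mem_univ, true_and]
      exact ⟨hxy', hxz', hxw', hyz', hyw', hzw'⟩)
    rw [hpt, hpt, hpt, hpt]
    exact this

end Pool.Agent.Lib.Helper12.IntDist.Geo
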