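import Mathlib
import Pool.Agent.Lib.Helper12.IntDist.Geo5
open Finset

namespace Pool.Agent.Lib.Helper12.IntDist.Geo
open Pool.Agent.Lib.Helper12.IntDist.Core
open ComplexConjugate

set_option linter.unusedSectionVars false

/-- A finite set in general position with an integer-distance graph that is not `k`-colourable. -/
def NotColorable (k : ℕ) (B : Set ℂ) : Prop :=
  ∀ c : ℂ → Fin k, ∃ x ∈ B, ∃ y ∈ B, x ≠ y ∧ (∃ m : ℤ, dist x y = m) ∧ c x = c y

theorem exists_finite_block (k : ℕ) (hk : 0 < k) : ∃ B : Set ℂ, B.Finite ∧ GP B ∧ NotColorable k B := by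
  classical
  obtain ⟨n, q, W, hW1, hW2⟩ := core k hk
  have hne : Nonempty (Fin n) := by
    obtain ⟨x, _, z, _, ⟨i, _⟩, _⟩ := hW2 (fun _ => ⟨0, hk⟩)
    exact ⟨i⟩
  obtain ⟨Φ, hΦ1, hΦ2, hΦ3⟩ := realize W hne hW1
  refine ⟨Φ '' (W : Set _), W.finite_toSet.image Φ, hΦ2, ?_⟩
  intro c
  obtain ⟨x, hx, z, hz, hadj, hc⟩ := hW2 (fun x => c (Φ x))
  refine ⟨Φ x, ⟨x, hx, rfl⟩, Φ z, ⟨z, hz, rfl⟩, ?_, hΦ3 x z hadj, hc⟩
  apply hΦ1 x hx z hz
  rintro rfl
  exact not_hadj_self _ hadj

theorem NotColorable.translate {k : ℕ} {B : Set ℂ} (h : NotColorable k B) (g : ℂ) :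
    NotColorable k ((fun b => b + g) '' B) := by
  intro c
  obtain ⟨x, hx, y, hy, hxy, hm, hc⟩ := h (fun x => c (x + g))
  refine ⟨x + g, ⟨x, hx, rfl⟩, y + g, ⟨y, hy, rfl⟩, ?_, ?_, hc⟩
  · intro h; exact hxy (add_right_cancel h)
  · rw [dist_add_right]; exact hm

theorem NotColorable.mono {k : ℕ} {B C : Set ℂ} (h : NotColorable k B) (hBC : B ⊆ C) : NotColorable k C := by
  intro c
  obtain ⟨x, hx, y, hy, r⟩ := h c
  exact ⟨x, hBC hx, y, hBC hy, r⟩

theorem GP_empty : GP ∅ := ⟨fun x hx => absurd hx (Set.notMem_empty x), fun x hx => absurd hx (Set.notMem_empty x)⟩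

noncomputable def block (k : ℕ) : Set ℂ := (exists_finite_block (k + 1) (Nat.succ_pos k)).choose
theorem block_spec (k : ℕ) : (block k).Finite ∧ GP (block k) ∧ NotColorable (k + 1) (block k) :=
  (exists_finite_block (k + 1) (Nat.succ_pos k)).choose_spec

noncomputable def stage : ℕ → {A : Set ℂ // A.Finite ∧ GP A}
  | 0 => ⟨∅, Set.finite_empty, GP_empty⟩
  | k + 1 => ⟨(stage k).1 ∪ (fun b => b + (union_step (stage k).1 (block k) (stage k).2.1 (block_spec k).1 (stage k).2.2 (block_spec k).2.1).choose) '' (block k),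
      (stage k).2.1.union ((block_spec k).1.image _),
      (union_step (stage k).1 (block k) (stage k).2.1 (block_spec k).1 (stage k).2.2 (block_spec k).2.1).choose_spec⟩

theorem stage_mono : Monotone (fun k => (stage k).1) := by
  apply monotone_nat_of_le_succ
  intro k
  change (stage k).1 ⊆ (stage k).1 ∪ _
  exact Set.subset_union_left

theorem stage_notColorable (k : ℕ) : NotColorable (k + 1) (stage (k + 1)).1 := by
  have h := (block_spec k).2.2.translate (union_step (stage k).1 (block k) (stage k).2.1 (block_spec k).1 (stage k).2.2 (block_spec k).2.1).choose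
  exact h.mono Set.subset_union_right

/-- the infinite set -/
noncomputable def bigSet : Set ℂ := ⋃ k, (stage k).1

theorem bigSet_notColorable (k : ℕ) : NotColorable k bigSet := by
  rcases k with _ | k
  · intro c; exact (c 0).elim0
  · exact (stage_notColorable k).mono (Set.subset_iUnion (fun k => (stage k).1) (k + 1))

theorem bigSet_GP : GP bigSet := by
  constructor
  · intro x hx y hy z hz
    obtain ⟨i, hi⟩ := Set.mem_iUnion.1 hx
    obtain ⟨j, hj⟩ := Set.mem_iUnion.1 hy
    obtain ⟨k, hk⟩ := Set.mem_iUnion.1 hz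
    let N := max i (max j k)
    exact (stage N).2.2.1 x (stage_mono (le_max_left _ _) hi) y (stage_mono ((le_max_left _ _).trans (le_max_right _ _)) hj)
      z (stage_mono ((le_max_right _ _).trans (le_max_right _ _)) hk)
  · intro x hx y hy z hz w hw
    obtain ⟨i, hi⟩ := Set.mem_iUnion.1 hx
    obtain ⟨j, hj⟩ := Set.mem_iUnion.1 hy
    obtain ⟨k, hk⟩ := Set.mem_iUnion.1 hz
    obtain ⟨l, hl⟩ := Set.mem_iUnion.1 hw
    let N := max (max i j) (max k l)
    exact (stage N).2.2.2 x (stage_mono ((le_max_left _ _).trans (le_max_left _ _)) hi)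
      y (stage_mono ((le_max_right _ _).trans (le_max_left _ _)) hj)
      z (stage_mono ((le_max_left _ _).trans (le_max_right _ _)) hk)
      w (stage_mono ((le_max_right _ _).trans (le_max_right _ _)) hl)

theorem bigSet_infinite : bigSet.Infinite := by
  intro hfin
  -- colour by an injection into Fin (card)
  classical
  have := hfin.fintype
  have e := Fintype.equivFin ↥bigSet
  set n := Fintype.card ↥bigSet
  obtain ⟨x, hx, y, hy, hxy, _, hc⟩ := bigSet_notColorable (n + 1) (fun z => if h : z ∈ bigSet then (e ⟨z, h⟩).castSucc else 0)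
  rw [dif_pos hx, dif_pos hy] at hc
  have := e.injective (Fin.castSucc_injective _ hc)
  exact hxy (congrArg Subtype.val this)

end Pool.Agent.Lib.Helper12.IntDist.Geo
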