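import Mathlib
import Pool.Agent.Lib.Helper12.IntDist.Defs
import Pool.Agent.Lib.Helper12.IntDist.Geo6
open Finset

namespace Pool.Agent.Lib.Helper12.IntDist.Geo
open Pool.Agent.Lib.Helper12.IntDist
open ComplexConjugate

theorem col_zero_of_collinear (x y z : ℂ) (h : Collinear ℝ ({x, y, z} : Set ℂ)) :
    col x (conj x) y (conj y) z (conj z) = 0 := by
  rw [collinear_iff_of_mem (p₀ := x) (by simp)] at h
  obtain ⟨v, hv⟩ := h
  obtain ⟨r, hr⟩ := hv y (by simp)
  obtain ⟨s, hs⟩ := hv z (by simp)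
  unfold col
  rw [hr, hs]
  simp only [vadd_eq_add, Complex.real_smul, add_sub_cancel_right, map_add, map_mul, Complex.conj_ofReal]
  ring

theorem conc_zero_of_cospherical (x y z w : ℂ) (h : EuclideanGeometry.Cospherical ({x, y, z, w} : Set ℂ)) :
    conc x (conj x) y (conj y) z (conj z) w (conj w) = 0 := by
  obtain ⟨o, r, hr⟩ := h
  have key : ∀ p ∈ ({x, y, z, w} : Set ℂ), (p - o) * (conj p - conj o) = (r : ℂ) ^ 2 := by
    intro p hp
    have := hr p hp
    rw [← this, Complex.dist_eq, ← map_sub, Complex.mul_conj, Complex.normSq_eq_norm_sq]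
    push_cast; rfl
  have hx := key x (by simp)
  have hy := key y (by simp)
  have hz := key z (by simp)
  have hw := key w (by simp)
  set X := x - o with hX
  set Y := y - o with hY
  set Z := z - o with hZ
  set U := w - o with hU
  set X' := conj x - conj o with hX'
  set Y' := conj y - conj o with hY'
  set Z' := conj z - conj o with hZ'
  set U' := conj w - conj o with hU'
  have e : conc x (conj x) y (conj y) z (conj z) w (conj w) = 
    (X - Z) * (Y - U) * ((Y' - Z') * (X' - U')) - (X' - Z') * (Y' - U') * ((Y - Z) * (X - U)) := by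
    unfold conc
    rw [hX, hY, hZ, hU, hX', hY', hZ', hU']
    ring
  rw [e]
  rcases eq_or_ne (r : ℂ) 0 with h0 | h0
  · have hX0 : X = 0 := by
      have : dist x o = 0 := by rw [hr x (by simp)]; exact_mod_cast h0
      rw [hX, sub_eq_zero]; exact dist_eq_zero.1 this
    have hY0 : Y = 0 := by
      have : dist y o = 0 := by rw [hr y (by simp)]; exact_mod_cast h0
      rw [hY, sub_eq_zero]; exact dist_eq_zero.1 this
    have hZ0 : Z = 0 := by
      have : dist z o = 0 := by rw [hr z (by simp)]; exact_mod_cast h0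
      rw [hZ, sub_eq_zero]; exact dist_eq_zero.1 this
    rw [hX0, hY0, hZ0]; ring
  · have hr2 : (r : ℂ) ^ 2 ≠ 0 := pow_ne_zero 2 h0
    have hXn : X ≠ 0 := by intro h; rw [h, zero_mul] at hx; exact hr2 hx.symm
    have hYn : Y ≠ 0 := by intro h; rw [h, zero_mul] at hy; exact hr2 hy.symm
    have hZn : Z ≠ 0 := by intro h; rw [h, zero_mul] at hz; exact hr2 hz.symm
    have hUn : U ≠ 0 := by intro h; rw [h, zero_mul] at hw; exact hr2 hw.symm
    have ex : X' = (r : ℂ) ^ 2 / X := by rw [eq_div_iff hXn, mul_comm]; exact hx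
    have ey : Y' = (r : ℂ) ^ 2 / Y := by rw [eq_div_iff hYn, mul_comm]; exact hy
    have ez : Z' = (r : ℂ) ^ 2 / Z := by rw [eq_div_iff hZn, mul_comm]; exact hz
    have eu : U' = (r : ℂ) ^ 2 / U := by rw [eq_div_iff hUn, mul_comm]; exact hw
    rw [ex, ey, ez, eu]
    field_simp
    ring

noncomputable def toPlane : ℂ ≃ₗᵢ[ℝ] Plane := Complex.orthonormalBasisOneI.repr

theorem admissible_of_GP (A : Set ℂ) (hinf : A.Infinite) (hA : GP A) : Admissible (toPlane '' A) := by
  refine ⟨hinf.image toPlane.injective.injOn, ?_, ?_⟩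
  · rintro _ ⟨x, hx, rfl⟩ _ ⟨y, hy, rfl⟩ _ ⟨z, hz, rfl⟩ hxy hxz hyz hcol
    apply hA.1 x hx y hy z hz (fun h => hxy (by rw [h])) (fun h => hxz (by rw [h])) (fun h => hyz (by rw [h]))
    apply col_zero_of_collinear
    rw [collinear_iff_of_mem (p₀ := toPlane x) (by simp)] at hcol
    obtain ⟨v, hv⟩ := hcol
    rw [collinear_iff_of_mem (p₀ := x) (by simp)]
    refine ⟨toPlane.symm v, ?_⟩
    intro p hp
    obtain ⟨r, hr⟩ := hv (toPlane p) (by
      simp only [Set.mem_insert_iff, Set.mem_singleton_iff] at hp ⊢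
      rcases hp with rfl | rfl | rfl <;> simp)
    refine ⟨r, ?_⟩
    apply toPlane.injective
    rw [hr, vadd_eq_add, vadd_eq_add, map_add, map_smul, LinearIsometryEquiv.apply_symm_apply]
  · rintro _ ⟨x, hx, rfl⟩ _ ⟨y, hy, rfl⟩ _ ⟨z, hz, rfl⟩ _ ⟨w, hw, rfl⟩ hxy hxz hxw hyz hyw hzw hcon
    apply hA.2 x hx y hy z hz w hw (fun h => hxy (by rw [h])) (fun h => hxz (by rw [h])) (fun h => hxw (by rw [h]))
      (fun h => hyz (by rw [h])) (fun h => hyw (by rw [h])) (fun h => hzw (by rw [h]))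
    apply conc_zero_of_cospherical
    obtain ⟨o, r, hr⟩ := hcon
    refine ⟨toPlane.symm o, r, ?_⟩
    intro p hp
    have h4 : toPlane p ∈ ({toPlane x, toPlane y, toPlane z, toPlane w} : Set Plane) := by
      simp only [Set.mem_insert_iff, Set.mem_singleton_iff] at hp ⊢
      rcases hp with rfl | rfl | rfl | rfl <;> simp
    rw [← hr _ h4, ← toPlane.dist_map, LinearIsometryEquiv.apply_symm_apply]

end Pool.Agent.Lib.Helper12.IntDist.Geo
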