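import Mathlib
import Pool.Agent.Lib.Helper12.IntDist.Defs
import Pool.Agent.Lib.Helper12.IntDist.Geo7
import Pool.Agent.Lib.Helper12.IntDist.EH
open Cardinal Set

namespace Pool.Agent.Lib.Helper12.IntDist.Geo

theorem countable_inter {x y : Plane} (hxy : x ≠ y) (r s : ℝ) : {z : Plane | dist z x = r ∧ dist z y = s}.Countable := by
  by_cases h : ∃ p q : Plane, p ≠ q ∧ (dist p x = r ∧ dist p y = s) ∧ (dist q x = r ∧ dist q y = s)
  · obtain ⟨p, q, hpq, ⟨h1, h2⟩, ⟨h3, h4⟩⟩ := h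
    apply (Set.toFinite ({p, q} : Set Plane)).countable.mono
    intro z hz
    have := EuclideanGeometry.eq_of_dist_eq_of_dist_eq_of_finrank_eq_two (by simp) hxy hpq h1 h3 hz.1 h2 h4 hz.2
    simpa using this
  · apply Set.Subsingleton.countable
    intro p hp q hq
    by_contra hne
    exact h ⟨p, q, hne, hp, hq⟩

theorem cn_countable (A : Set Plane) (x y : A) : (EH.CN (distGraph A) x y).Countable := by
  by_cases hxy : x = y
  · have : EH.CN (distGraph A) x y = ∅ := by
      ext z; simp [EH.CN, hxy]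
    rw [this]; exact Set.countable_empty
  · have hsub : EH.CN (distGraph A) x y ⊆ ⋃ p : ℤ × ℤ, {z : A | dist (z : Plane) x = p.1 ∧ dist (z : Plane) y = p.2} := by
      rintro z ⟨_, ⟨_, m, hm⟩, ⟨_, n, hn⟩⟩
      refine Set.mem_iUnion.2 ⟨(m, n), ?_, ?_⟩
      · rw [dist_comm]; exact hm
      · rw [dist_comm]; exact hn
    apply Set.Countable.mono hsub
    apply Set.countable_iUnion
    rintro ⟨m, n⟩
    have h1 := countable_inter (x := (x : Plane)) (y := (y : Plane)) (fun h => hxy (Subtype.ext h)) m n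
    exact h1.preimage Subtype.val_injective

theorem upper (A : Set Plane) : Nonempty ((distGraph A).Coloring ℕ) := by
  obtain ⟨c, _, hc⟩ := EH.LC_all (distGraph A) (cn_countable A) Set.univ (fun _ => ∅)
  exact ⟨SimpleGraph.Coloring.mk c (fun {v w} h => hc v (Set.mem_univ _) w (Set.mem_univ _) h)⟩

theorem chromaticCard_le (A : Set Plane) : chromaticCard (distGraph A) ≤ ℵ₀ :=
  csInf_le' ⟨ℕ, mk_nat, upper A⟩

theorem chromaticCard_mem {V : Type} (G : SimpleGraph V) : ∃ α : Type, #α = chromaticCard G ∧ Nonempty (G.Coloring α) := by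
  have hne : {κ : Cardinal.{0} | ∃ α : Type, #α = κ ∧ Nonempty (G.Coloring α)}.Nonempty :=
    ⟨#V, V, rfl, ⟨G.selfColoring⟩⟩
  exact csInf_mem hne

theorem lower : ℵ₀ ≤ chromaticCard (distGraph (toPlane '' bigSet)) := by
  classical
  by_contra hcon
  rw [not_le] at hcon
  obtain ⟨α, hα, ⟨C⟩⟩ := chromaticCard_mem (distGraph (toPlane '' bigSet))
  rw [← hα] at hcon
  have hfin : Finite α := Cardinal.lt_aleph0_iff_finite.1 hcon
  obtain ⟨k, ⟨e⟩⟩ := Finite.exists_equiv_fin α
  obtain ⟨x, hx, y, hy, hxy, ⟨m, hm⟩, hc⟩ := bigSet_notColorable (k + 1)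
    (fun z => if h : z ∈ bigSet then (e (C ⟨toPlane z, z, h, rfl⟩)).castSucc else 0)
  rw [dif_pos hx, dif_pos hy] at hc
  have h1 : C ⟨toPlane x, x, hx, rfl⟩ = C ⟨toPlane y, y, hy, rfl⟩ := e.injective (Fin.castSucc_injective _ hc)
  have hadj : (distGraph (toPlane '' bigSet)).Adj ⟨toPlane x, x, hx, rfl⟩ ⟨toPlane y, y, hy, rfl⟩ := by
    refine ⟨?_, m, ?_⟩
    · intro h
      exact hxy (toPlane.injective (congrArg Subtype.val h))
    · rw [← hm]; exact toPlane.dist_map x y
  exact C.valid hadj h1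

end Pool.Agent.Lib.Helper12.IntDist.Geo
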